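import Pool.Agent.W_b4801b_t10k.Res

set_option autoImplicit false

/-!
# Semisimplicity and Tate classes

Let `S = (V_ℓ)` be a polarized pure `ℚ`-rational compatible system of weight `2 j` over a field `k` with
dense Frobenius elements, whose Frobenius polynomials pass the Newton test (for example the second
cohomology of a surface with geometric genus one at the ordinary places).  Let `ℓ` be a prime such that
the isotropic stable subspaces `W` of `V_ℓ` are balanced (a power of `det W(j)` is trivial) and such
that potentially unipotent stable subspaces of `V_ℓ(j)` are potentially trivial; both are true over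
number fields without CM subfields.

Then every isotropic stable subspace consists of Tate classes over a finite extension of `k`, and `V_ℓ`
is semisimple if and only if the pairing is nondegenerate on the Tate classes over every finite
extension.
-/

open Pool.Agent.B4801b Pool.Agent.T10 Pool.Agent.T10K Polynomial

universe u v

theorem Pool.Agent.T10K.newtonResult
    (k : Type u) [Field k] (j : ℕ) (S : CompSys.{u, v} k (2 * j)) (hd : DenseFrob S) (hN : Newton S)
    (ℓ : ℕ) [Fact ℓ.Prime] (hbal : BalRep (S.rep ℓ)) (hU : UnipTrivRep (S.rep ℓ)) :
    IsotropicTate (S.rep ℓ) ∧ ((S.rep ℓ).Semisimple ↔ TateNondegRep (S.rep ℓ)) := by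
  obtain ⟨N, hN0, hbal⟩ := hbal
  have hb := res_balanced _ N hbal
  have hu := res_unip _ hU
  refine ⟨fun W hW hI => ?_, ?_⟩
  · obtain ⟨U, hUo, h⟩ := hu W hW (exists_open_unipotent S hd hN ℓ N hN0 hb W hW hI)
    exact ⟨U, hUo, fun σ hσ x hx => h σ hσ x hx⟩
  · rw [← res_nondeg]
    exact newton_theorem S hd hN ℓ N hN0 hb hu
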