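import Pool.Agent.W_b4801b_t10.Defs

/-!
# Semisimplicity and Tate classes: the Newton test (definitions)

Paper proof (helper32).  `S` = polarized pure `ℚ`-rational compatible system of weight `2 j` with dense
Frobenius elements, all of which pass the Newton test, `c = q ^ (2 j)`.  Let `W ⊆ V_ℓ` be isotropic and
stable, with balanced determinant.  For a root `α` of the characteristic polynomial of `F_x` on `W` the
number `α ^ 2 / c` has absolute value `1` at all places (`p = p_x`: Newton test; other primes: `F_x` acts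
on representations of compact groups; archimedean: purity), so it is a root of unity.  By density an
open subgroup acts unipotently on `W(j)`.

THEOREM. `V_ℓ` is semisimple if and only if the pairing is nondegenerate on the Tate classes
`V_ℓ(j)^U`, `U` open.
-/

set_option autoImplicit false

noncomputable section

open Polynomial

universe u v

namespace Pool.Agent.T10K

open Pool.Agent.B4801b Pool.Agent.T10

/-- The Newton test for the polynomial `P` and the number `c` at the prime `p`: let `R` be a multiset of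
roots of `P` in the algebraic closure of `ℚ_p` such that `R + c / R` is contained in the multiset of the
roots of `P`. If the product of the `|β ^ 2 / c|`, `β ∈ R`, is `1` then all of them are `1`. -/
def NewtonTest (P : ℚ[X]) (c : ℚ) (p : ℕ) : Prop :=
  ∃ h : p.Prime, haveI : Fact p.Prime := ⟨h⟩
    ∀ R : Multiset (PadicAlgCl p),
      R + R.map (fun β => algebraMap ℚ (PadicAlgCl p) c / β) ≤ P.aroots (PadicAlgCl p) →
      (R.map fun β => ‖β ^ 2 / algebraMap ℚ (PadicAlgCl p) c‖).prod = 1 →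
      ∀ β ∈ R, ‖β ^ 2 / algebraMap ℚ (PadicAlgCl p) c‖ = 1

variable {k : Type u} [Field k]

/-- The action of `σ` on the twist `V(j)`: `χ_ℓ(σ) ^ j ρ(σ)`. -/
def twist {j ℓ : ℕ} [Fact ℓ.Prime] (R : PolRep.{u, v} k (2 * j) ℓ) (σ : Gal k) :
    Module.End ℚ_[ℓ] R.V :=
  (cyc k ℓ σ ^ j) • R.ρ σ

/-- Isotropic stable subspaces of `V` have balanced determinant, with exponent `N`: the determinant of
`σ` on `W(j)` satisfies `det ^ (2 N) = 1`. -/
def IsoBalanced {j ℓ : ℕ} [Fact ℓ.Prime] (R : PolRep.{u, v} k (2 * j) ℓ) (N : ℕ) : Prop :=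
  ∀ (W : Submodule ℚ_[ℓ] R.V) (hW : ∀ σ, ∀ x ∈ W, R.ρ σ x ∈ W),
    (∀ x ∈ W, ∀ y ∈ W, R.ψ x y = 0) → ∀ σ : Gal k,
      (LinearMap.det ((R.ρ σ).restrict (hW σ)) * (cyc k ℓ σ) ^ (j * Module.finrank ℚ_[ℓ] W)) ^ (2 * N)
        = 1

/-- Potentially unipotent stable subspaces of `V(j)` are potentially trivial (true for Hodge-Tate
representations of number fields, by class field theory and Sen's theorem). -/
def UnipotentFinite {j ℓ : ℕ} [Fact ℓ.Prime] (R : PolRep.{u, v} k (2 * j) ℓ) : Prop :=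
  ∀ W : Submodule ℚ_[ℓ] R.V, (∀ σ, ∀ x ∈ W, R.ρ σ x ∈ W) →
    (∃ U : Subgroup (Gal k), IsOpen (U : Set (Gal k)) ∧ ∃ n : ℕ, ∀ σ ∈ U, ∀ x ∈ W,
      ((twist R σ - 1) ^ n) x = 0) →
    ∃ U : Subgroup (Gal k), IsOpen (U : Set (Gal k)) ∧ ∀ σ ∈ U, ∀ x ∈ W, twist R σ x = x

/-- The Tate classes `V(j)^U`. -/
def tateOn {j ℓ : ℕ} [Fact ℓ.Prime] (R : PolRep.{u, v} k (2 * j) ℓ) (U : Subgroup (Gal k)) :
    Submodule ℚ_[ℓ] R.V where
  carrier := {v | ∀ σ ∈ U, twist R σ v = v}
  add_mem' := by
    intro a b ha hb σ hσ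
    rw [map_add, ha σ hσ, hb σ hσ]
  zero_mem' := by
    intro σ _
    rw [map_zero]
  smul_mem' := by
    intro r a ha σ hσ
    rw [map_smul, ha σ hσ]

/-- The pairing is nondegenerate on the Tate classes over every finite extension. -/
def TateNondeg {j ℓ : ℕ} [Fact ℓ.Prime] (R : PolRep.{u, v} k (2 * j) ℓ) : Prop :=
  ∀ U : Subgroup (Gal k), IsOpen (U : Set (Gal k)) → ∀ v ∈ tateOn R U,
    (∀ v' ∈ tateOn R U, R.ψ v v' = 0) → v = 0

end Pool.Agent.T10K
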