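import Pool.Agent.W_MP_b4801b_h67.Main

/-! Linear algebra for `semisimple_of_tate`. -/

set_option autoImplicit false

noncomputable section

open Module

namespace Pool.Agent.T10K

open Pool.Agent.B4801b

variable {K : Type*} [Field K] {V : Type*} [AddCommGroup V] [Module K V]

/-- Left nondegeneracy on `N` implies right nondegeneracy. -/
theorem Lin2_right [FiniteDimensional K V] (ψ : LinearMap.BilinForm K V) (N : Submodule K V)
    (h : ∀ v ∈ N, (∀ v' ∈ N, ψ v v' = 0) → v = 0) :
    ∀ x ∈ N, x ∈ perp ψ N → x = 0 := by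
  intro x hx hxp
  let B : N →ₗ[K] Module.Dual K N :=
    { toFun := fun n => (ψ (n : V)).comp N.subtype
      map_add' := by
        intro a b
        apply LinearMap.ext
        intro y
        simp
      map_smul' := by
        intro r a
        apply LinearMap.ext
        intro y
        simp }
  have hB : ∀ n y : N, B n y = ψ (n : V) (y : V) := fun n y => rfl
  have hinj : Function.Injective B := by
    rw [injective_iff_map_eq_zero]
    intro n hn
    apply Subtype.ext
    apply h n n.2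
    intro v' hv'
    have := LinearMap.congr_fun hn ⟨v', hv'⟩
    exact this
  have hsurj : Function.Surjective B := by
    have hd : finrank K N = finrank K (Module.Dual K N) := Subspace.dual_finrank_eq.symm
    exact (LinearMap.injective_iff_surjective_of_finrank_eq_finrank hd).1 hinj
  have h0 : (⟨x, hx⟩ : N) = 0 := by
    rw [← Module.forall_dual_apply_eq_zero_iff K]
    intro f
    obtain ⟨n, rfl⟩ := hsurj f
    exact hxp n n.2
  exact congrArg Subtype.val h0

/-- The orthogonal of a stable subspace is stable. -/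
theorem Lin2_perp {G : Type*} [Group G] (ρ : Representation K G V) (ψ : LinearMap.BilinForm K V)
    (m : G → K) (hm : Equivariant m ρ ψ) (W : Submodule K V) (hW : GStable ρ W) :
    GStable ρ (perp ψ W) := by
  intro σ y hy x hx
  have h1 : ρ σ (ρ σ⁻¹ x) = x := by
    rw [← Module.End.mul_apply, ← map_mul, mul_inv_cancel, map_one, Module.End.one_apply]
  have h2 : ψ (ρ σ⁻¹ x) y = 0 := hy _ (hW _ x hx)
  have h3 := hm σ (ρ σ⁻¹ x) y
  rw [h1, h2] at h3
  rcases mul_eq_zero.mp h3 with h | h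
  · have : ∀ x y, ψ x y = 0 := fun x y => by rw [← hm σ x y, h, zero_mul]
    exact this _ _
  · exact h

theorem Lin2_abs [CharZero K] [FiniteDimensional K V] {G : Type*} [Group G]
    (ρ : Representation K G V) (ψ : LinearMap.BilinForm K V) (m : G → K)
    (hm : Equivariant m ρ ψ) (U : Subgroup G) (hU : U.FiniteIndex) (N : Submodule K V)
    (hN : GStable ρ N) (hsc : ∀ σ ∈ U, ∃ c : K, ∀ v ∈ N, ρ σ v = c • v)
    (hnd : ∀ v ∈ N, (∀ v' ∈ N, ψ v v' = 0) → v = 0)
    (hiso : ∀ W : Submodule K V, GStable ρ W → (∀ x ∈ W, ∀ y ∈ W, ψ x y = 0) → W ≤ N) :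
    IsSemisimpleRep ρ := by
  intro W hW
  have hr := Lin2_right ψ N hnd
  have hc := isCompl_perp ψ N hr
  set M := perp ψ N with hMdef
  have hM : GStable ρ M := Lin2_perp ρ ψ m hm N hN
  set T := W ⊓ M with hTdef
  have hT : GStable ρ T := fun σ x hx => ⟨hW σ x hx.1, hM σ x hx.2⟩
  have hTp : GStable ρ (perp ψ T) := Lin2_perp ρ ψ m hm T hT
  have hT0 : ∀ x ∈ T, x ∈ perp ψ T → x = 0 := by
    intro x hx hxp
    have h1 : T ⊓ perp ψ T ≤ N := hiso _ (fun σ x hx => ⟨hT σ x hx.1, hTp σ x hx.2⟩)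
      (fun x hx y hy => hy.2 x hx.1)
    exact hr x (h1 ⟨hx, hxp⟩) hx.2
  have hTc := isCompl_perp ψ T hT0
  -- decompositions
  have hdecN : ∀ v : V, ∃ n ∈ N, ∃ m ∈ M, n + m = v := fun v =>
    Submodule.mem_sup.1 (by rw [hc.sup_eq_top]; trivial)
  have hdecT : ∀ v : V, ∃ t ∈ T, ∃ s ∈ perp ψ T, t + s = v := fun v =>
    Submodule.mem_sup.1 (by rw [hTc.sup_eq_top]; trivial)
  have hNM : ∀ x ∈ N, x ∈ M → x = 0 := fun x h1 h2 => hr x h1 h2
  -- the projection of `W` to `N`
  let π : Module.End K V := N.subtype ∘ₗ N.projectionOnto M hc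
  have hπN : ∀ x, π x ∈ N := fun x => (N.projectionOnto M hc x).2
  have hπM : ∀ x, x - π x ∈ M := by
    intro x
    obtain ⟨n, hn, m', hm', rfl⟩ := hdecN x
    have h1 : π (n + m') = n := by
      change ((N.projectionOnto M hc (n + m') : N) : V) = n
      rw [map_add]
      have h2 : N.projectionOnto M hc n = ⟨n, hn⟩ :=
        Submodule.projectionOnto_apply_left hc ⟨n, hn⟩
      have h3 : N.projectionOnto M hc m' = 0 :=
        (Submodule.projectionOnto_apply_eq_zero_iff hc).mpr hm'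
      rw [h2, h3, add_zero]
    rw [h1, add_sub_cancel_left]
    exact hm'
  obtain ⟨C0, hC0⟩ := Submodule.exists_isCompl ((W.map π).comap N.subtype)
  set C := C0.map N.subtype with hC
  have hCN : C ≤ N := by
    rintro _ ⟨x, _, rfl⟩
    exact x.2
  -- `N = π(W) + C`
  have hNdec : ∀ n ∈ N, ∃ w ∈ W, ∃ c ∈ C, π w + c = n := by
    intro n hn
    have h1 : (⟨n, hn⟩ : N) ∈ (W.map π).comap N.subtype ⊔ C0 := by
      rw [hC0.sup_eq_top]; trivial
    obtain ⟨a, ha, c, hc', hac⟩ := Submodule.mem_sup.1 h1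
    obtain ⟨w, hw, hwa⟩ := ha
    refine ⟨w, hw, c, ⟨c, hc', rfl⟩, ?_⟩
    rw [hwa]
    exact congrArg Subtype.val hac
  have hNdis : ∀ w ∈ W, π w ∈ C → π w = 0 := by
    rintro w hw ⟨c, hc', hcw⟩
    have h1 : c ∈ (W.map π).comap N.subtype := ⟨w, hw, hcw.symm⟩
    have h2 : c = 0 := by
      have : c ∈ (W.map π).comap N.subtype ⊓ C0 := ⟨h1, hc'⟩
      rw [hC0.inf_eq_bot] at this
      exact this
    rw [← hcw, h2, map_zero]
  refine exists_compl_of_finiteIndex ρ U W hW ⟨C ⊔ (perp ψ T ⊓ M), ?_, ?_, ?_⟩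
  · intro σ hσ x hx
    obtain ⟨c, hc', s, hs, rfl⟩ := Submodule.mem_sup.1 hx
    obtain ⟨r, hr'⟩ := hsc σ hσ
    rw [map_add, hr' c (hCN hc')]
    exact Submodule.add_mem_sup (C.smul_mem r hc') ⟨hTp σ s hs.1, hM σ s hs.2⟩
  · rw [Submodule.disjoint_def]
    intro x hx hx'
    obtain ⟨c, hc', s, hs, hcs⟩ := Submodule.mem_sup.1 hx'
    -- `π x = c`
    have h1 : π x = c := by
      have h2 : π x - c ∈ M := by
        have h3 : π x - c = s - (x - π x) := by rw [← hcs]; abel
        rw [h3]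
        exact M.sub_mem hs.2 (hπM x)
      have h4 := hNM _ (N.sub_mem (hπN x) (hCN hc')) h2
      exact sub_eq_zero.1 h4
    have h2 : π x = 0 := hNdis x hx (by rw [h1]; exact hc')
    have h3 : c = 0 := by rw [← h1, h2]
    have h4 : x = s := by rw [← hcs, h3, zero_add]
    have h5 : x ∈ T := ⟨hx, by rw [h4]; exact hs.2⟩
    exact hT0 x h5 (by rw [h4]; exact hs.1)
  · rw [codisjoint_iff, eq_top_iff]
    intro v _
    obtain ⟨n, hn, m', hm', rfl⟩ := hdecN v
    obtain ⟨w, hw, c, hc', rfl⟩ := hNdec n hn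
    obtain ⟨t, ht, s, hs, hts⟩ := hdecT (m' - (w - π w))
    have hsM : s ∈ M := by
      have h1 : s = (m' - (w - π w)) - t := by rw [← hts]; abel
      rw [h1]
      exact M.sub_mem (M.sub_mem hm' (hπM w)) ht.2
    have h2 : π w + c + m' = (w + t) + (c + s) := by
      have h3 : m' = t + s + (w - π w) := by rw [hts]; abel
      rw [h3]; abel
    rw [h2]
    exact Submodule.add_mem_sup (W.add_mem hw ht.1) (Submodule.add_mem_sup hc' ⟨hs, hsM⟩)

end Pool.Agent.T10K
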