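import Pool.Agent.W_b4801b_t10k.Defs
import Pool.Agent.W_MP_b4801b_h67.Avg

/-! Linear algebra: for semisimple representations the pairing is nondegenerate on the Tate
classes. -/

set_option autoImplicit false

noncomputable section

universe u v

namespace Pool.Agent.T10K

open Pool.Agent.B4801b Pool.Agent.T10

variable {k : Type u} [Field k] {j ℓ : ℕ} [Fact ℓ.Prime]

theorem Lin3_cyc_mul (σ τ : Gal k) : cyc k ℓ (σ * τ) = cyc k ℓ σ * cyc k ℓ τ := by
  unfold cyc
  have h : (σ * τ).toRingEquiv = σ.toRingEquiv * τ.toRingEquiv := rfl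
  rw [h, map_mul, Units.val_mul]
  push_cast
  rfl

theorem Lin3_cyc_ne (σ : Gal k) : cyc k ℓ σ ≠ 0 := by
  have h1 : cyc k ℓ (1 : Gal k) = 1 := by
    unfold cyc
    have h : (1 : Gal k).toRingEquiv = 1 := rfl
    rw [h, map_one]
    simp
  intro h
  have h2 := Lin3_cyc_mul (ℓ := ℓ) σ σ⁻¹
  rw [mul_inv_cancel, h1, h, zero_mul] at h2
  exact one_ne_zero h2

theorem Lin3_twist_apply (R : PolRep.{u, v} k (2 * j) ℓ) (σ : Gal k) (x : R.V) :
    twist R σ x = (cyc k ℓ σ ^ j) • R.ρ σ x := rfl

theorem Lin3_psi_twist (R : PolRep.{u, v} k (2 * j) ℓ) (σ : Gal k) (x y : R.V) :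
    R.ψ (twist R σ x) (twist R σ y) = R.ψ x y := by
  rw [Lin3_twist_apply, Lin3_twist_apply, map_smul, map_smul, LinearMap.smul_apply, smul_eq_mul,
    smul_eq_mul]
  have h := R.equivariant σ x y
  rw [← h]
  ring

theorem Lin3_twist_mul (R : PolRep.{u, v} k (2 * j) ℓ) (σ τ : Gal k) (x : R.V) :
    twist R (σ * τ) x = twist R σ (twist R τ x) := by
  rw [Lin3_twist_apply, Lin3_twist_apply, Lin3_twist_apply, map_smul, smul_smul, map_mul,
    Lin3_cyc_mul, mul_pow]
  rfl

theorem Lin3_twist_one (R : PolRep.{u, v} k (2 * j) ℓ) (x : R.V) : twist R 1 x = x := by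
  have h1 : cyc k ℓ (1 : Gal k) = 1 := by
    unfold cyc
    have h : (1 : Gal k).toRingEquiv = 1 := rfl
    rw [h, map_one]
    simp
  rw [Lin3_twist_apply, h1, one_pow, one_smul, map_one]
  rfl

theorem Lin3_twist_mem (R : PolRep.{u, v} k (2 * j) ℓ) (W : Submodule ℚ_[ℓ] R.V) (σ : Gal k)
    (h : ∀ x ∈ W, R.ρ σ x ∈ W) (x : R.V) (hx : x ∈ W) : twist R σ x ∈ W :=
  W.smul_mem _ (h x hx)

theorem Lin3_rho_mem (R : PolRep.{u, v} k (2 * j) ℓ) (W : Submodule ℚ_[ℓ] R.V) (σ : Gal k)
    (x : R.V) (hx : twist R σ x ∈ W) : R.ρ σ x ∈ W := by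
  have h : R.ρ σ x = (cyc k ℓ σ ^ j)⁻¹ • twist R σ x := by
    rw [Lin3_twist_apply, smul_smul, inv_mul_cancel₀ (pow_ne_zero _ (Lin3_cyc_ne σ)), one_smul]
  rw [h]
  exact W.smul_mem _ hx

/-- the adjoint of the action -/
theorem Lin3_psi_move (R : PolRep.{u, v} k (2 * j) ℓ) (σ : Gal k) (x y : R.V)
    (h : twist R σ x = x) : R.ψ x (twist R σ y) = R.ψ x y := by
  conv_lhs => rw [← h]
  rw [Lin3_psi_twist]

theorem Lin3_tate_stable (R : PolRep.{u, v} k (2 * j) ℓ) (U : Subgroup (Gal k)) (hU : U.Normal)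
    (σ : Gal k) (x : R.V) (hx : x ∈ tateOn R U) : R.ρ σ x ∈ tateOn R U := by
  apply Lin3_rho_mem
  intro τ hτ
  rw [← Lin3_twist_mul]
  have h : τ * σ = σ * (σ⁻¹ * τ * σ) := by group
  rw [h, Lin3_twist_mul]
  have h2 : σ⁻¹ * τ * σ ∈ U := by
    have := hU.conj_mem τ hτ σ⁻¹
    rwa [inv_inv] at this
  rw [hx _ h2]

/-- For a normal subgroup the Tate classes have an orthogonal complement. -/
theorem Lin3_orth (R : PolRep.{u, v} k (2 * j) ℓ) (h : R.Semisimple) (U : Subgroup (Gal k))
    (hU : U.Normal) : ∃ C : Submodule ℚ_[ℓ] R.V, IsCompl (tateOn R U) C ∧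
      ∀ v ∈ tateOn R U, ∀ x ∈ C, R.ψ v x = 0 := by
  obtain ⟨C, hC, hcompl⟩ := h (tateOn R U) (fun σ x hx => Lin3_tate_stable R U hU σ x hx)
  refine ⟨C, hcompl, ?_⟩
  -- the right orthogonal of the Tate classes
  let O : Submodule ℚ_[ℓ] R.V :=
    { carrier := {x | ∀ v ∈ tateOn R U, R.ψ v x = 0}
      add_mem' := fun {a b} ha hb v hv => by rw [map_add, ha v hv, hb v hv, add_zero]
      zero_mem' := fun v _ => by rw [map_zero]
      smul_mem' := fun r a ha v hv => by rw [map_smul, ha v hv, smul_zero] }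
  have hO : ∀ σ : Gal k, ∀ x ∈ O, R.ρ σ x ∈ O := by
    intro σ x hx
    apply Lin3_rho_mem
    intro v hv
    have h1 : v = twist R σ (twist R σ⁻¹ v) := by
      rw [← Lin3_twist_mul, mul_inv_cancel, Lin3_twist_one]
    rw [h1, Lin3_psi_twist]
    exact hx _ (Lin3_twist_mem R _ _ (fun y hy => Lin3_tate_stable R U hU _ y hy) _ hv)
  obtain ⟨D, hD, hDcompl⟩ := h O hO
  -- a complement of `C ⊓ O` in `C` by the modular law, directly
  obtain ⟨L, hL, hLcompl⟩ := h (C ⊓ O) (fun σ x hx => ⟨hC σ x hx.1, hO σ x hx.2⟩)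
  have hLC : L ⊓ C ≤ tateOn R U := by
    intro x hx σ hσ
    have h1 : twist R σ x - x ∈ L := L.sub_mem (Lin3_twist_mem R L σ (hL σ) x hx.1) hx.1
    have h2 : twist R σ x - x ∈ C := C.sub_mem (Lin3_twist_mem R C σ (hC σ) x hx.2) hx.2
    have h3 : twist R σ x - x ∈ O := by
      intro v hv
      rw [map_sub, Lin3_psi_move R σ v x (hv σ hσ), sub_self]
    have h4 : twist R σ x - x = 0 := by
      have := (Submodule.disjoint_def.mp hLcompl.disjoint) (twist R σ x - x) ⟨h2, h3⟩ h1
      exact this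
    exact sub_eq_zero.mp h4
  have hLC0 : L ⊓ C = ⊥ := by
    rw [eq_bot_iff]
    intro x hx
    exact (Submodule.disjoint_def.mp hcompl.disjoint) x (hLC hx) hx.2
  have hCO : C ≤ O := by
    intro x hx
    have h1 : x ∈ (C ⊓ O) ⊔ L := by rw [hLcompl.sup_eq_top]; trivial
    obtain ⟨y, hy, z, hz, hyz⟩ := Submodule.mem_sup.mp h1
    have hzC : z ∈ C := by
      have : z = x - y := by rw [← hyz]; abel
      rw [this]
      exact C.sub_mem hx hy.1
    have hz0 : z = 0 := by
      have : z ∈ L ⊓ C := ⟨hz, hzC⟩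
      rw [hLC0] at this
      exact this
    rw [← hyz, hz0, add_zero]
    exact hy.2
  exact fun v hv x hx => hCO hx v hv

/-- Open subgroups of the absolute Galois group have finite index. -/
theorem Lin3_finiteIndex (U : Subgroup (Gal k)) (hU : IsOpen (U : Set (Gal k))) :
    U.FiniteIndex := by
  obtain ⟨L, hL, hLU⟩ := (krullTopology_mem_nhds_one_iff k (AlgebraicClosure k) (U : Set (Gal k))).mp
    (hU.mem_nhds U.one_mem)
  have hle : L.fixingSubgroup ≤ U := hLU
  have : L.fixingSubgroup.FiniteIndex := by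
    have : Finite (Gal k ⧸ L.fixingSubgroup) := by
      let f : Gal k ⧸ L.fixingSubgroup → (L →ₐ[k] AlgebraicClosure k) :=
        Quotient.lift (fun σ : Gal k => (σ : AlgebraicClosure k →ₐ[k] AlgebraicClosure k).comp L.val)
          (by
            intro σ τ hst
            have h1 : σ⁻¹ * τ ∈ L.fixingSubgroup := QuotientGroup.leftRel_apply.mp hst
            apply AlgHom.ext
            intro x
            have h2 := (IntermediateField.mem_fixingSubgroup_iff L _).mp h1 x x.2
            change σ x = τ x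
            have h3 : σ ((σ⁻¹ * τ) (x : AlgebraicClosure k)) = σ x := by rw [h2]
            rw [← h3]
            change σ (σ⁻¹ (τ x)) = τ x
            rw [← AlgEquiv.mul_apply, mul_inv_cancel, AlgEquiv.one_apply])
      have hf : Function.Injective f := by
        intro a b
        induction a using Quotient.inductionOn with
        | h σ =>
          induction b using Quotient.inductionOn with
          | h τ =>
            intro he
            apply Quotient.sound
            apply QuotientGroup.leftRel_apply.mpr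
            rw [IntermediateField.mem_fixingSubgroup_iff]
            intro x hx
            have h1 : σ x = τ x := DFunLike.congr_fun he (⟨x, hx⟩ : L)
            change σ⁻¹ (τ x) = x
            rw [← h1, ← AlgEquiv.mul_apply, inv_mul_cancel, AlgEquiv.one_apply]
      exact Finite.of_injective f hf
    exact Subgroup.finiteIndex_of_finite_quotient
  exact Subgroup.finiteIndex_of_le hle

/-- Conversely, if `V` is semisimple then the pairing is nondegenerate on the Tate classes.

Proof. Let `U` be open, `U₀` its normal core, `v ∈ V(j)^U` orthogonal to `V(j)^U`. `V(j)^U₀` is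
stable and has an orthogonal complement `C` (`Lin3_orth`). If `ψ(v, ·)` does not vanish it does not
vanish on `V(j)^U₀`; so its kernel has a complementary line stable under `U₀`, hence one which is
stable under `U` (`exists_compl_of_finiteIndex`), on which `U` acts trivially (via `twist`), a
contradiction. -/
theorem tate_of_semisimple (R : PolRep.{u, v} k (2 * j) ℓ) (h : R.Semisimple) : TateNondeg R := by
  intro U hU v hv hv0
  have := Lin3_finiteIndex U hU
  obtain ⟨C, hC, hCo⟩ := Lin3_orth R h U.normalCore (Subgroup.normalCore_normal U)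
  have hle : tateOn R U ≤ tateOn R U.normalCore := fun x hx σ hσ => hx σ (Subgroup.normalCore_le U hσ)
  apply R.nondeg v
  by_contra hcon
  -- a Tate class over `U₀` on which `ψ v` does not vanish
  obtain ⟨x₀, hx₀, hx₀v⟩ : ∃ x ∈ tateOn R U.normalCore, R.ψ v x ≠ 0 := by
    by_contra hcon2
    push Not at hcon2
    apply hcon
    intro y
    have h1 : y ∈ tateOn R U.normalCore ⊔ C := by rw [hC.sup_eq_top]; trivial
    obtain ⟨a, ha, b, hb, rfl⟩ := Submodule.mem_sup.mp h1
    rw [map_add, hcon2 a ha, hCo v (hle hv) b hb, add_zero]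
  let K : Submodule ℚ_[ℓ] R.V := LinearMap.ker (R.ψ v)
  have hK : ∀ x, x ∈ K ↔ R.ψ v x = 0 := fun x => LinearMap.mem_ker
  let ρU : Representation ℚ_[ℓ] U R.V := R.ρ.comp U.subtype
  have hKs : GStable ρU K := by
    intro σ x hx
    change R.ρ (σ : Gal k) x ∈ K
    apply Lin3_rho_mem
    rw [hK, Lin3_psi_move R σ v x (hv σ σ.2)]
    exact (hK x).mp hx
  have : (U.normalCore.subgroupOf U).FiniteIndex := inferInstance
  obtain ⟨L, hL, hLc⟩ := exists_compl_of_finiteIndex ρU (U.normalCore.subgroupOf U) K hKs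
    ⟨Submodule.span ℚ_[ℓ] {x₀}, by
      intro σ hσ x hx
      have hσ' : (σ : Gal k) ∈ U.normalCore := Subgroup.mem_subgroupOf.mp hσ
      change R.ρ (σ : Gal k) x ∈ _
      apply Lin3_rho_mem
      obtain ⟨a, rfl⟩ := Submodule.mem_span_singleton.mp hx
      rw [map_smul, hx₀ _ hσ']
      exact hx, by
      constructor
      · rw [Submodule.disjoint_def]
        intro x hx hx'
        obtain ⟨a, rfl⟩ := Submodule.mem_span_singleton.mp hx'
        rw [hK, map_smul, smul_eq_mul] at hx
        rcases mul_eq_zero.mp hx with h1 | h1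
        · rw [h1, zero_smul]
        · exact absurd h1 hx₀v
      · rw [codisjoint_iff, eq_top_iff]
        intro x _
        have hx : x = (x - (R.ψ v x / R.ψ v x₀) • x₀) + (R.ψ v x / R.ψ v x₀) • x₀ := by abel
        rw [hx]
        refine Submodule.add_mem_sup ?_ (Submodule.smul_mem _ _ (Submodule.mem_span_singleton_self _))
        rw [hK, map_sub, map_smul, smul_eq_mul, div_mul_cancel₀ _ hx₀v, sub_self]⟩
  have hLt : L ≤ tateOn R U := by
    intro x hx σ hσ
    have h1 : twist R σ x - x ∈ L :=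
      L.sub_mem (Lin3_twist_mem R L σ (fun y hy => hL ⟨σ, hσ⟩ y hy) x hx) hx
    have h2 : twist R σ x - x ∈ K := by
      rw [hK, map_sub, Lin3_psi_move R σ v x (hv σ hσ), sub_self]
    exact sub_eq_zero.mp ((Submodule.disjoint_def.mp hLc.disjoint) _ h2 h1)
  apply hx₀v
  have h1 : x₀ ∈ K ⊔ L := by rw [hLc.sup_eq_top]; trivial
  obtain ⟨a, ha, b, hb, hab⟩ := Submodule.mem_sup.mp h1
  rw [← hab, map_add, (hK a).mp ha, hv0 b (hLt hb), add_zero]

end Pool.Agent.T10K
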