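import Pool.Agent.W_b4801b_t10k.Lin1
import Pool.Agent.W_b4801b_t10k.Lin2
import Pool.Agent.W_b4801b_t10k.Lin3

/-! Linear algebra: semisimplicity and Tate classes. -/

set_option autoImplicit false

noncomputable section

universe u v

namespace Pool.Agent.T10K

open Pool.Agent.B4801b Pool.Agent.T10

variable {k : Type u} [Field k] {j ℓ : ℕ} [Fact ℓ.Prime]

/-- If every isotropic stable subspace consists of Tate classes over a finite extension, and the pairing
is nondegenerate on the Tate classes, then `V` is semisimple.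

Proof. `N = tateOn R U` of `exists_all_tate`, stable under `G` (`U` normal), `G` acts on `N(j)` through the finite group `G / U`, so `N`
is semisimple (Maschke; or `exists_compl_of_finiteIndex` for the subgroup `U`, which acts on `N` by scalars).
`ψ` is nondegenerate on `N`, so `V = N ⊕ N^⊥` (`N^⊥ = {y | ∀ x ∈ N, ψ x y = 0}`, stable; note that `ψ` need not be symmetric, use
the right orthogonal and count dimensions). A stable `W ⊆ V`: let `W' = W ∩ W^⊥`...: It is enough to
show that `N^⊥` is semisimple: for stable `T ⊆ N^⊥`, `T ∩ T^⊥` is isotropic and stable, so contained in `N`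
(hypothesis), and in `N^⊥`, so zero; hence `T ⊕ T^⊥ = V` and `T` has the stable complement `T^⊥ ∩ N^⊥` in
`N^⊥`. Direct sums of two semisimple subrepresentations are semisimple (given stable `W`, take
complements of `W ∩ N^⊥` in `N^⊥` and of the image of `W` in `V / N^⊥ ≃ N`). -/
theorem semisimple_of_tate (R : PolRep.{u, v} k (2 * j) ℓ)
    (h1 : ∀ W : Submodule ℚ_[ℓ] R.V, (∀ σ, ∀ x ∈ W, R.ρ σ x ∈ W) →
      (∀ x ∈ W, ∀ y ∈ W, R.ψ x y = 0) →
      ∃ U : Subgroup (Gal k), IsOpen (U : Set (Gal k)) ∧ W ≤ tateOn R U)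
    (h2 : TateNondeg R) : R.Semisimple := by
  obtain ⟨U, hUo, hUn, hU⟩ := exists_all_tate R
  have hcyc : ∀ σ : Gal k, cyc k ℓ σ ^ j ≠ 0 := by
    intro σ
    apply pow_ne_zero
    intro h0
    have h1 : ((cyclotomicCharacter (AlgebraicClosure k) ℓ σ.toRingEquiv : ℤ_[ℓ]ˣ) : ℤ_[ℓ]) = 0 := by
      apply Subtype.val_injective
      exact h0
    exact Units.ne_zero _ h1
  have hρ : ∀ (σ : Gal k) (v : R.V), R.ρ σ v = (cyc k ℓ σ ^ j)⁻¹ • twist R σ v := by
    intro σ v
    unfold twist
    rw [LinearMap.smul_apply, smul_smul, inv_mul_cancel₀ (hcyc σ), one_smul]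
  have hfin : U.FiniteIndex := Lin3_finiteIndex U hUo
  have hN : GStable R.ρ (tateOn R U) := by
    intro σ v hv
    rw [hρ]
    refine Submodule.smul_mem _ _ ?_
    intro τ hτ
    have h1 : σ⁻¹ * τ * σ ∈ U := by
      have := hUn.conj_mem τ hτ σ⁻¹
      rwa [inv_inv] at this
    rw [← Module.End.mul_apply, ← twist_mul, show τ * σ = σ * (σ⁻¹ * τ * σ) by group, twist_mul,
      Module.End.mul_apply, hv _ h1]
  refine Lin2_abs R.ρ R.ψ _ R.equivariant U hfin (tateOn R U) hN ?_ ?_ ?_
  · intro σ hσ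
    refine ⟨(cyc k ℓ σ ^ j)⁻¹, fun v hv => ?_⟩
    rw [hρ, hv σ hσ]
  · intro v hv h
    exact h2 U hUo v hv h
  · intro W hW hI
    obtain ⟨U', hU', hWU'⟩ := h1 W hW hI
    exact hWU'.trans (hU U' hU')

end Pool.Agent.T10K
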