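import Pool.Agent.W_b4801b_t10k.Unip
import Pool.Agent.W_b4801b_t10k.Lin
import Pool.Agent.W_b4801b_t10k.Lin3

/-! The Newton test theorem. -/

set_option autoImplicit false

noncomputable section

open Polynomial

universe u v

namespace Pool.Agent.T10K

open Pool.Agent.B4801b Pool.Agent.T10

variable {k : Type u} [Field k]

/-- Semisimplicity is equivalent to the nondegeneracy of the pairing on the Tate classes.

Proof. `exists_open_unipotent`, `UnipotentFinite` and `semisimple_of_tate`; `tate_of_semisimple`. -/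
theorem newton_theorem {j : ℕ} (S : CompSys.{u, v} k (2 * j)) (hd : DenseFrob S)
    (hN : ∀ x ∈ S.Pl, NewtonTest (S.P x) ((x.q : ℚ) ^ (2 * j)) x.p) (ℓ : ℕ) [Fact ℓ.Prime] (N : ℕ)
    (hN0 : 0 < N) (hbal : IsoBalanced (S.rep ℓ) N) (hU : UnipotentFinite (S.rep ℓ)) :
    (S.rep ℓ).Semisimple ↔ TateNondeg (S.rep ℓ) := by
  refine ⟨tate_of_semisimple _, fun h2 => semisimple_of_tate _ (fun W hW hI => ?_) h2⟩
  obtain ⟨U, hUo, h⟩ := hU W hW (exists_open_unipotent S hd hN ℓ N hN0 hbal W hW hI)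
  exact ⟨U, hUo, fun x hx σ hσ => h σ hσ x hx⟩

end Pool.Agent.T10K
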