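import Pool.Agent.W_b4801b_t10.ApxP

/-!
# Kronecker's theorem for the eigenvalues of Frobenius elements
-/

set_option autoImplicit false

noncomputable section

open Polynomial

universe u v

namespace Pool.Agent.T10K

open Pool.Agent.B4801b Pool.Agent.T10

variable {k : Type u} [Field k] {w : ℕ}

theorem Kro_norm_one_of_sub {F : Type*} [NormedField F] [IsUltrametricDist F] (z : F) (r : ℝ)
    (hr : r < 1) (h : ‖z - 1‖ ≤ r) : ‖z‖ = 1 := by
  have h1 : ‖z - 1‖ < ‖(1 : F)‖ := by rw [norm_one]; exact h.trans_lt hr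
  have h2 : z = (z - 1) + 1 := by ring
  rw [h2, IsUltrametricDist.norm_add_eq_max_of_norm_ne_norm h1.ne, max_eq_right h1.le, norm_one]

/-- The eigenvalues of Frobenius are `ℓ`-adic units for `ℓ ≠ p`. -/
theorem norm_root_eq_one (S : CompSys.{u, v} k w) (x : Place k) (hx : x ∈ S.Pl) (ℓ : ℕ)
    [hℓ : Fact ℓ.Prime] (hp : ℓ ≠ x.p) (z : PadicAlgCl ℓ) (hz : aeval z (S.P x) = 0) : ‖z‖ = 1 := by
  obtain ⟨A, hA, hAU⟩ := exists_pow_mem ((chartOf S ℓ).U 2) ((chartOf S ℓ).isOpen 2) x.frob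
  have h1 := (chartOf S ℓ).cong 2 _ hAU
  have hchar := charpoly_frob_eq S ℓ (chartOf S ℓ) x hx hp
  have hz' : aeval z ((chartOf S ℓ).M x.frob).charpoly = 0 := by
    rw [hchar, aeval_map_algebraMap]
    exact hz
  have h2 := aeval_charpoly_pow ((chartOf S ℓ).M x.frob) z hz' A
  rw [← map_pow] at h2
  have h3 := norm_root_sub_one_le 2 _ h1 _ h2
  have h4 : ‖z ^ A‖ = 1 := by
    refine Kro_norm_one_of_sub _ _ ?_ h3
    have hp2 : (1 : ℝ) < (ℓ : ℝ) := by exact_mod_cast hℓ.out.one_lt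
    exact inv_lt_one_of_one_lt₀ (one_lt_pow₀ hp2 (by norm_num))
  rw [norm_pow] at h4
  exact (pow_eq_one_iff_of_nonneg (norm_nonneg _) hA.ne').1 h4

/-- The number of elements of the residue field is an `ℓ`-adic unit for `ℓ ≠ p`. -/
theorem norm_q (x : Place k) (ℓ : ℕ) [Fact ℓ.Prime] (hp : ℓ ≠ x.p) : ‖(x.q : ℚ_[ℓ])‖ = 1 := by
  have h1 := congrArg norm (x.cyc_frob ℓ hp)
  rw [norm_mul, norm_one, cyc] at h1
  have h2 : ‖(((cyclotomicCharacter (AlgebraicClosure k) ℓ x.frob.toRingEquiv : ℤ_[ℓ]ˣ) : ℤ_[ℓ]) :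
      ℚ_[ℓ])‖ = 1 := by
    rw [PadicInt.padic_norm_e_of_padicInt]
    exact PadicInt.norm_units _
  rwa [h2, one_mul] at h1

/-- A rational number which is integral at all primes is an integer. -/
theorem Kro_int (r : ℚ) (h : ∀ ℓ : ℕ, ∀ [Fact ℓ.Prime], ‖(r : ℚ_[ℓ])‖ ≤ 1) :
    ∃ n : ℤ, (n : ℚ) = r := by
  have hden : r.den = 1 := by
    by_contra hne
    obtain ⟨p, hp, hpd⟩ := Nat.exists_prime_and_dvd hne
    have hF : Fact p.Prime := ⟨hp⟩
    have hnum : ¬ (p : ℤ) ∣ r.num := by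
      intro hdvd
      have h1 : p ∣ r.num.natAbs := Int.natCast_dvd.1 hdvd
      have h2 : p ∣ Nat.gcd r.num.natAbs r.den := Nat.dvd_gcd h1 hpd
      rw [r.reduced.gcd_eq_one] at h2
      exact hp.one_lt.ne' (Nat.dvd_one.1 h2)
    have h1 : ‖((r.num : ℤ) : ℚ_[p])‖ = 1 := by
      rcases lt_or_eq_of_le (Padic.norm_int_le_one (p := p) r.num) with h2 | h2
      · exact absurd (Padic.norm_intCast_lt_one_iff.1 h2) hnum
      · exact h2
    have h2 : ‖((r.den : ℕ) : ℚ_[p])‖ < 1 := by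
      exact Padic.norm_natCast_lt_one_iff.2 hpd
    have h3 : (r : ℚ_[p]) * ((r.den : ℕ) : ℚ_[p]) = ((r.num : ℤ) : ℚ_[p]) := by
      have h4 : (r * (r.den : ℚ) : ℚ) = (r.num : ℚ) := Rat.mul_den_eq_num r
      exact_mod_cast congrArg (fun z : ℚ => (z : ℚ_[p])) h4
    have h4 := congrArg norm h3
    rw [norm_mul, h1] at h4
    have h5 := h p
    have h6 : ‖(r : ℚ_[p])‖ * ‖((r.den : ℕ) : ℚ_[p])‖ < 1 := by
      calc ‖(r : ℚ_[p])‖ * ‖((r.den : ℕ) : ℚ_[p])‖ ≤ 1 * ‖((r.den : ℕ) : ℚ_[p])‖ := by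
            gcongr
        _ < 1 := by rwa [one_mul]
    linarith
  exact ⟨r.num, by rw [← Rat.mul_den_eq_num r, hden]; simp⟩

theorem Kro_coeff {F : Type*} [NormedField F] [IsUltrametricDist F] (s : Multiset F)
    (hs : ∀ y ∈ s, ‖y‖ ≤ 1) : ∀ i, ‖((s.map fun y => X - C y).prod).coeff i‖ ≤ 1 := by
  induction s using Multiset.induction_on with
  | empty =>
    intro i
    rw [Multiset.map_zero, Multiset.prod_zero, coeff_one]
    split_ifs <;> simp
  | cons a s ih =>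
    intro i
    have ha : ‖a‖ ≤ 1 := hs a (Multiset.mem_cons_self a s)
    have hs' := ih fun y hy => hs y (Multiset.mem_cons_of_mem hy)
    rw [Multiset.map_cons, Multiset.prod_cons, sub_mul, coeff_sub, coeff_C_mul]
    rw [sub_eq_add_neg]
    refine (IsUltrametricDist.norm_add_le_max _ _).trans (max_le ?_ ?_)
    · rcases i with _ | i
      · simp
      · rw [coeff_X_mul]
        exact hs' i
    · rw [norm_neg, norm_mul]
      calc ‖a‖ * _ ≤ 1 * 1 := by
            gcongr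
            exact hs' i
        _ = 1 := one_mul _

/-- An element of a number field whose conjugates are integral at all primes is integral. -/
theorem Kro_integral {K : Type*} [Field K] [NumberField K] (z : K)
    (h : ∀ ℓ : ℕ, ∀ [Fact ℓ.Prime], ∀ φ : K →+* PadicAlgCl ℓ, ‖φ z‖ ≤ 1) : IsIntegral ℤ z := by
  have hint : ∀ i, ∃ n : ℤ, (n : ℚ) = (minpoly ℚ z).coeff i := by
    intro i
    refine Kro_int _ fun ℓ _ => ?_
    have hs : ((minpoly ℚ z).map (algebraMap ℚ (PadicAlgCl ℓ))).Splits := IsAlgClosed.splits _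
    have hmon : ((minpoly ℚ z).map (algebraMap ℚ (PadicAlgCl ℓ))).Monic :=
      (minpoly.monic (Algebra.IsIntegral.isIntegral z)).map _
    have h1 := Kro_coeff ((minpoly ℚ z).map (algebraMap ℚ (PadicAlgCl ℓ))).roots (by
      intro y hy
      have h2 : y ∈ (minpoly ℚ z).rootSet (PadicAlgCl ℓ) := by
        rw [mem_rootSet]
        refine ⟨minpoly.ne_zero (Algebra.IsIntegral.isIntegral z), ?_⟩
        rw [mem_roots', IsRoot.def, eval_map_algebraMap] at hy
        exact hy.2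
      rw [← NumberField.Embeddings.range_eval_eq_rootSet_minpoly K (PadicAlgCl ℓ) z] at h2
      obtain ⟨φ, hφ⟩ := h2
      have h3 := h ℓ φ
      change φ z = y at hφ
      rwa [hφ] at h3) i
    rw [← hs.eq_prod_roots_of_monic hmon, coeff_map] at h1
    have h2 : algebraMap ℚ (PadicAlgCl ℓ) ((minpoly ℚ z).coeff i) =
        algebraMap ℚ_[ℓ] (PadicAlgCl ℓ) (((minpoly ℚ z).coeff i : ℚ) : ℚ_[ℓ]) := by
      rw [eq_ratCast (algebraMap ℚ (PadicAlgCl ℓ)), map_ratCast]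
    rw [h2] at h1
    have h4 := PadicAlgCl.norm_extends ℓ (((minpoly ℚ z).coeff i : ℚ) : ℚ_[ℓ])
    rwa [h4] at h1
  have hl : minpoly ℚ z ∈ lifts (algebraMap ℤ ℚ) := by
    rw [lifts_iff_coeff_lifts]
    intro i
    obtain ⟨n, hn⟩ := hint i
    exact ⟨n, by simpa using hn⟩
  obtain ⟨q, hq, -, hqm⟩ := lifts_and_natDegree_eq_and_monic hl
    (minpoly.monic (Algebra.IsIntegral.isIntegral z))
  refine ⟨q, hqm, ?_⟩
  have h1 : aeval z (q.map (algebraMap ℤ ℚ)) = 0 := by rw [hq, minpoly.aeval]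
  rw [aeval_map_algebraMap] at h1
  exact h1

/-- If the root `b` of `P_x` satisfies `|σ(b) ^ 2 / q ^ w| = 1` for all embeddings `σ` into the algebraic
closure of `ℚ_p`, then `b ^ 2 / q ^ w` is a root of unity. -/
theorem kro (S : CompSys.{u, v} k w) (x : Place k) (hx : x ∈ S.Pl) (b : ↥(frobField (S.P x)))
    (hb : aeval b (S.P x) = 0)
    (hp : ∀ [Fact x.p.Prime] (σ : ↥(frobField (S.P x)) →+* PadicAlgCl x.p),
      ‖σ b ^ 2 / (x.q : PadicAlgCl x.p) ^ w‖ = 1) :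
    ∃ n : ℕ, 0 < n ∧ (b ^ 2 / (x.q : ↥(frobField (S.P x))) ^ w) ^ n = 1 := by
  have hfd := frobField_fd (S.P x)
  have hnf : NumberField ↥(frobField (S.P x)) := { to_charZero := inferInstance, to_finiteDimensional := hfd }
  have hq0 : (x.q : ℝ) ≠ 0 := by
    intro h0
    have h1 : x.q = 0 := by exact_mod_cast h0
    obtain ⟨ℓ, hℓ, hgt⟩ := Nat.exists_infinite_primes (x.p + 1)
    have hF : Fact ℓ.Prime := ⟨hgt⟩
    have h2 := x.cyc_frob ℓ (by omega)
    rw [h1, Nat.cast_zero, mul_zero] at h2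
    exact zero_ne_one h2
  have hroot : ∀ {L : Type} [Field L] [CharZero L] (φ : ↥(frobField (S.P x)) →+* L),
      aeval (φ b) (S.P x) = 0 := by
    intro L _ _ φ
    have h1 := aeval_algHom_apply φ.toRatAlgHom b (S.P x)
    rw [hb, map_zero] at h1
    exact h1
  have hI : IsIntegral ℤ (b ^ 2 / (x.q : ↥(frobField (S.P x))) ^ w) := by
    refine Kro_integral _ fun ℓ _ φ => ?_
    rw [map_div₀, map_pow, map_pow, map_natCast]
    by_cases hℓ : ℓ = x.p
    · subst hℓ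
      exact (hp φ).le
    · rw [norm_div, norm_pow, norm_pow, norm_root_eq_one S x hx ℓ hℓ _ (hroot φ)]
      have h1 : ‖(x.q : PadicAlgCl ℓ)‖ = 1 := by
        have h2 := PadicAlgCl.norm_extends ℓ (x.q : ℚ_[ℓ])
        rw [norm_q x ℓ hℓ] at h2
        change ‖algebraMap ℚ_[ℓ] (PadicAlgCl ℓ) (x.q : ℚ_[ℓ])‖ = 1 at h2
        rw [map_natCast] at h2
        exact h2
      rw [h1]
      simp
  have hC : ∀ φ : ↥(frobField (S.P x)) →+* ℂ,
      ‖φ (b ^ 2 / (x.q : ↥(frobField (S.P x))) ^ w)‖ = 1 := by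
    intro φ
    rw [map_div₀, map_pow, map_pow, map_natCast, norm_div, norm_pow, norm_pow, Complex.norm_natCast,
      S.pure x hx _ (hroot φ)]
    exact div_self (pow_ne_zero _ hq0)
  obtain ⟨n, hn, hn1⟩ := NumberField.Embeddings.pow_eq_one_of_norm_eq_one
    (↥(frobField (S.P x))) ℂ hI hC
  exact ⟨n, hn, hn1⟩

end Pool.Agent.T10K
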