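import Pool.Agent.W_b4801b_t10k.Defs

/-! Kronecker's theorem. -/

set_option autoImplicit false

noncomputable section

open Polynomial

namespace Pool.Agent.T10K

/-- The coefficients of a product of linear factors. -/
theorem Kron_coeff (p : ℕ) [Fact p.Prime] (s : Multiset (PadicAlgCl p)) (hs : ∀ β ∈ s, ‖β‖ ≤ 1)
    (i : ℕ) : ‖((s.map fun β => (X : (PadicAlgCl p)[X]) - C β).prod).coeff i‖ ≤ 1 := by
  induction s using Multiset.induction_on generalizing i with
  | empty =>
    rw [Multiset.map_zero, Multiset.prod_zero, Polynomial.coeff_one]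
    split_ifs
    · rw [norm_one]
    · rw [norm_zero]; exact zero_le_one
  | cons β s ih =>
    have ih' := ih (fun γ hγ => hs γ (Multiset.mem_cons_of_mem hγ))
    have hβ := hs β (Multiset.mem_cons_self β s)
    rw [Multiset.map_cons, Multiset.prod_cons, sub_mul, Polynomial.coeff_sub,
      Polynomial.coeff_C_mul]
    have h2 : ‖β * ((s.map fun β => (X : (PadicAlgCl p)[X]) - C β).prod).coeff i‖ ≤ 1 := by
      rw [norm_mul]
      exact mul_le_one₀ hβ (norm_nonneg _) (ih' i)
    have h1 : ‖((X : (PadicAlgCl p)[X]) *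
        (s.map fun β => (X : (PadicAlgCl p)[X]) - C β).prod).coeff i‖ ≤ 1 := by
      cases i with
      | zero =>
        rw [Polynomial.coeff_zero_eq_eval_zero, Polynomial.eval_mul, Polynomial.eval_X, zero_mul,
          norm_zero]
        exact zero_le_one
      | succ i =>
        rw [Polynomial.coeff_X_mul]
        exact ih' i
    rw [sub_eq_add_neg]
    refine (PadicAlgCl.isNonarchimedean p _ _).trans (max_le h1 ?_)
    rw [norm_neg]
    exact h2

/-- A rational number of norm at most one. -/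
theorem Kron_den (p : ℕ) [Fact p.Prime] (c : ℚ) (h : ‖algebraMap ℚ (PadicAlgCl p) c‖ ≤ 1) :
    ¬ p ∣ c.den := by
  intro hp
  have h1 : ‖(c : ℚ_[p])‖ ≤ 1 := by
    have e : algebraMap ℚ (PadicAlgCl p) c = ((c : ℚ_[p]) : PadicAlgCl p) := by
      rw [eq_ratCast]
      exact (map_ratCast (algebraMap ℚ_[p] (PadicAlgCl p)) c).symm
    rwa [e, PadicAlgCl.norm_extends] at h
  have h2 : ‖((c.den : ℕ) : ℚ_[p])‖ < 1 := Padic.norm_natCast_lt_one_iff.2 hp
  have h3 : (c : ℚ_[p]) * ((c.den : ℕ) : ℚ_[p]) = ((c.num : ℤ) : ℚ_[p]) := by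
    have := Rat.mul_den_eq_num c
    exact_mod_cast congrArg (fun x : ℚ => (x : ℚ_[p])) this
  have h4 : ‖((c.num : ℤ) : ℚ_[p])‖ < 1 := by
    rw [← h3, norm_mul]
    calc ‖(c : ℚ_[p])‖ * ‖((c.den : ℕ) : ℚ_[p])‖ ≤ 1 * ‖((c.den : ℕ) : ℚ_[p])‖ :=
          mul_le_mul_of_nonneg_right h1 (norm_nonneg _)
      _ < 1 := by rwa [one_mul]
  have h5 : (p : ℤ) ∣ c.num := Padic.norm_intCast_lt_one_iff.1 h4
  have h6 : p ∣ c.num.natAbs := Int.natCast_dvd.1 h5
  have h7 : p ∣ 1 := by
    rw [← Nat.Coprime.gcd_eq_one c.reduced]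
    exact Nat.dvd_gcd h6 hp
  exact (Fact.out : p.Prime).one_lt.ne' (Nat.dvd_one.1 h7)

/-- The bound for the order. -/
theorem Kron_order (d m : ℕ) (hm : 0 < m) (h : Nat.totient m ≤ d) :
    m ∣ ((d + 1).factorial) ^ (d + 1) := by
  rw [Nat.dvd_iff_prime_pow_dvd_dvd]
  intro p k hp hk
  rcases Nat.eq_zero_or_pos k with rfl | hk0
  · rw [pow_zero]
    exact one_dvd _
  have h1 : Nat.totient (p ^ k) ≤ d :=
    (Nat.le_of_dvd (Nat.totient_pos.2 hm) (Nat.totient_dvd_of_dvd hk)).trans h
  rw [Nat.totient_prime_pow hp hk0] at h1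
  have hp2 := hp.two_le
  have h2 : p - 1 ≤ d :=
    (Nat.le_mul_of_pos_left (p - 1) (Nat.pow_pos hp.pos)).trans h1
  have h3 : p ^ (k - 1) ≤ d :=
    (Nat.le_mul_of_pos_right (p ^ (k - 1)) (by omega)).trans h1
  have h4 : k - 1 < p ^ (k - 1) := Nat.lt_pow_self hp.one_lt
  have h5 : k ≤ d + 1 := by omega
  exact (pow_dvd_pow_of_dvd (Nat.dvd_factorial hp.pos (by omega)) k).trans (pow_dvd_pow _ h5)

/-- A monic polynomial with rational coefficients all of whose roots have norm at most one in all
`PadicAlgCl p` has integral coefficients.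

Proof. The coefficients are, up to sign, elementary symmetric functions of the roots, so they have
`p`-adic norm at most `1` for every prime `p`; a rational number with this property is an integer. -/
theorem integral_of_norm_le (f : ℚ[X]) (hf : f.Monic)
    (h : ∀ (p : ℕ) [Fact p.Prime] (β : PadicAlgCl p), aeval β f = 0 → ‖β‖ ≤ 1) :
    ∃ g : ℤ[X], g.map (Int.castRingHom ℚ) = f := by
  have hint : ∀ i, ∃ z : ℤ, ((z : ℤ) : ℚ) = f.coeff i := by
    intro i
    have hden : (f.coeff i).den = 1 := by
      by_contra hne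
      obtain ⟨p, hp, hpd⟩ := Nat.exists_prime_and_dvd hne
      haveI : Fact p.Prime := ⟨hp⟩
      refine Kron_den p (f.coeff i) ?_ hpd
      have h1 : (f.map (algebraMap ℚ (PadicAlgCl p))).Monic := hf.map _
      have h2 := (IsAlgClosed.splits (f.map (algebraMap ℚ (PadicAlgCl p)))).eq_prod_roots_of_monic h1
      have h3 : (f.map (algebraMap ℚ (PadicAlgCl p))).coeff i =
          algebraMap ℚ (PadicAlgCl p) (f.coeff i) := Polynomial.coeff_map _ _
      rw [← h3, h2]
      refine Kron_coeff p _ ?_ i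
      intro β hβ
      refine h p β ?_
      have h4 := (Polynomial.mem_roots h1.ne_zero).1 hβ
      rw [Polynomial.IsRoot, Polynomial.eval_map] at h4
      exact h4
    exact ⟨(f.coeff i).num, Rat.den_eq_one_iff _ |>.1 hden⟩
  have hl : f ∈ Polynomial.lifts (Int.castRingHom ℚ) := by
    rw [Polynomial.lifts_iff_coeff_lifts]
    intro i
    obtain ⟨z, hz⟩ := hint i
    exact ⟨z, hz⟩
  exact (Polynomial.mem_lifts f).1 hl

/-- Kronecker: for every `d` there is `N > 0` such that every root `u` (in a field `Ω` of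
characteristic zero) of a monic polynomial `f ∈ ℚ[X]` of degree at most `d`, all of whose
complex roots have absolute value `1` and all of whose roots in the fields `PadicAlgCl p` have norm at
most `1`, satisfies `u ^ N = 1`.

Proof. Replace `f` by the minimal polynomial of `u` (it divides `f`). It has integral coefficients
(`integral_of_norm_le`). In the number field `ℚ(u)` (`AdjoinRoot` / `IntermediateField.adjoin`) `u` is an algebraic integer all of
whose conjugates have absolute value `1`, so it is a root of unity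
(`NumberField.Embeddings.pow_eq_one_of_norm_eq_one`), of some order `m` with `φ(m) ≤ d`, so `m` is
bounded: `φ(m) ≤ d` has finitely many solutions, e.g. every `p ^ e ∣ m` has `p ^ (e - 1) (p - 1) ≤ d`, so
`m ∣ N := ((2 * d + 2)!) ^ (2 * d + 2)` or any crude choice. (Another way to get `N`: there are finitely
many monic integral polynomials of degree at most `d` with all complex roots of absolute value `1`,
the coefficients are bounded by `2 ^ d`; take the product of the orders.) -/
theorem kronecker (d : ℕ) : ∃ N : ℕ, 0 < N ∧ ∀ (Ω : Type) [Field Ω] [Algebra ℚ Ω] (f : ℚ[X])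
    (u : Ω), f.Monic → f.natDegree ≤ d → aeval u f = 0 →
    (∀ z : ℂ, aeval z f = 0 → ‖z‖ = 1) →
    (∀ (p : ℕ) [Fact p.Prime] (β : PadicAlgCl p), aeval β f = 0 → ‖β‖ ≤ 1) → u ^ N = 1 := by
  refine ⟨((d + 1).factorial) ^ (d + 1), Nat.pow_pos (Nat.factorial_pos _), ?_⟩
  intro Ω _ inst f u hf hfd hu hC hp
  obtain ⟨g, hg⟩ := integral_of_norm_le f hf hp
  have hchar : CharZero Ω := algebraRat.charZero Ω
  obtain rfl : inst = DivisionRing.toRatAlgebra := Subsingleton.elim _ _
  have hgm : g.Monic := by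
    refine Polynomial.monic_of_injective (f := Int.castRingHom ℚ) Int.cast_injective ?_
    rw [hg]
    exact hf
  have hui : IsIntegral ℚ u := ⟨f, hf, hu⟩
  haveI hfin : FiniteDimensional ℚ (IntermediateField.adjoin ℚ {u}) :=
    IntermediateField.adjoin.finiteDimensional hui
  haveI : NumberField (IntermediateField.adjoin ℚ {u}) :=
    NumberField.of_module_finite ℚ (IntermediateField.adjoin ℚ {u})
  let x : IntermediateField.adjoin ℚ {u} := IntermediateField.AdjoinSimple.gen ℚ u
  have hxu : algebraMap (IntermediateField.adjoin ℚ {u}) Ω x = u :=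
    IntermediateField.AdjoinSimple.algebraMap_gen ℚ u
  have hinj : Function.Injective (algebraMap (IntermediateField.adjoin ℚ {u}) Ω) :=
    (algebraMap (IntermediateField.adjoin ℚ {u}) Ω).injective
  have hx0 : ∀ (r : ℚ →+* IntermediateField.adjoin ℚ {u}), Polynomial.eval₂ r x f = 0 := by
    intro r
    apply hinj
    rw [Polynomial.hom_eval₂, map_zero, hxu]
    have e : (algebraMap (IntermediateField.adjoin ℚ {u}) Ω).comp r = algebraMap ℚ Ω :=
      Subsingleton.elim _ _
    rw [e]
    exact hu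
  have hxi : IsIntegral ℤ x := by
    refine ⟨g, hgm, ?_⟩
    have h1 := hx0 (algebraMap ℚ _)
    rw [← hg, Polynomial.eval₂_map] at h1
    have e : (algebraMap ℚ (IntermediateField.adjoin ℚ {u})).comp (Int.castRingHom ℚ) =
        algebraMap ℤ (IntermediateField.adjoin ℚ {u}) := Subsingleton.elim _ _
    rwa [e] at h1
  obtain ⟨n, hn, hxn⟩ := NumberField.Embeddings.pow_eq_one_of_norm_eq_one
    (IntermediateField.adjoin ℚ {u}) ℂ hxi (fun φ => by
      refine hC _ ?_
      rw [Polynomial.aeval_def]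
      have e : algebraMap ℚ ℂ = φ.comp (algebraMap ℚ _) := Subsingleton.elim _ _
      rw [e, ← Polynomial.hom_eval₂, hx0, map_zero])
  have hun : u ^ n = 1 := by
    rw [← hxu, ← map_pow, hxn, map_one]
  have hfo : IsOfFinOrder u := isOfFinOrder_iff_pow_eq_one.2 ⟨n, hn, hun⟩
  have hpos : 0 < orderOf u := hfo.orderOf_pos
  have hprim : IsPrimitiveRoot u (orderOf u) := IsPrimitiveRoot.orderOf u
  have hdeg : Nat.totient (orderOf u) ≤ d := by
    have e := Polynomial.cyclotomic_eq_minpoly_rat hprim hpos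
    have h1 := Polynomial.natDegree_le_of_dvd (minpoly.dvd ℚ u hu) hf.ne_zero
    rw [← e, Polynomial.natDegree_cyclotomic] at h1
    exact h1.trans hfd
  exact orderOf_dvd_iff_pow_eq_one.1 (Kron_order d _ hpos hdeg)

end Pool.Agent.T10K
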