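import Pool.Agent.W_b4801b_t10k.Defs
import Pool.Agent.W_MP_b4801b_h67.Avg

/-! Linear algebra: the twist and the space of all Tate classes. -/

set_option autoImplicit false

noncomputable section

universe u v

namespace Pool.Agent.T10K

open Pool.Agent.B4801b Pool.Agent.T10

variable {k : Type u} [Field k] {j ℓ : ℕ} [Fact ℓ.Prime]

/-- The cyclotomic character is multiplicative. -/
theorem Lin1_cyc_mul (σ τ : Gal k) : cyc k ℓ (σ * τ) = cyc k ℓ σ * cyc k ℓ τ := by
  have h1 : (σ * τ).toRingEquiv = σ.toRingEquiv * τ.toRingEquiv := rfl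
  unfold cyc
  rw [h1, map_mul, Units.val_mul, PadicInt.coe_mul]

/-- The pairing is invariant under `twist`, and `twist` is multiplicative. -/
theorem psi_twist (R : PolRep.{u, v} k (2 * j) ℓ) (σ : Gal k) (x y : R.V) :
    R.ψ (twist R σ x) (twist R σ y) = R.ψ x y := by
  have h := R.equivariant σ x y
  unfold twist
  rw [LinearMap.smul_apply, LinearMap.smul_apply, map_smul, map_smul, LinearMap.smul_apply,
    smul_eq_mul, smul_eq_mul, ← mul_assoc, ← pow_add, ← two_mul]
  exact h

theorem twist_mul (R : PolRep.{u, v} k (2 * j) ℓ) (σ τ : Gal k) :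
    twist R (σ * τ) = twist R σ * twist R τ := by
  unfold twist
  rw [map_mul, Lin1_cyc_mul, mul_pow, smul_mul_smul_comm]

/-- Smaller subgroups have more Tate classes. -/
theorem Lin1_anti (R : PolRep.{u, v} k (2 * j) ℓ) {U U' : Subgroup (Gal k)} (h : U ≤ U') :
    tateOn R U' ≤ tateOn R U := fun _ hx σ hσ => hx σ (h hσ)

/-- Every open subgroup contains an open normal subgroup. -/
theorem Lin1_normal {U : Subgroup (Gal k)} (hU : IsOpen (U : Set (Gal k))) :
    ∃ U' : Subgroup (Gal k), IsOpen (U' : Set (Gal k)) ∧ U'.Normal ∧ U' ≤ U := by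
  obtain ⟨E, hE1, hE2, hE3⟩ := (krullTopology_mem_nhds_one_iff_of_normal k (AlgebraicClosure k)
    (U : Set (Gal k))).1 (hU.mem_nhds U.one_mem)
  refine ⟨E.fixingSubgroup, E.fixingSubgroup_isOpen, ?_, hE3⟩
  rw [← E.restrictNormalHom_ker]
  exact MonoidHom.normal_ker _

/-- The space `N` of all Tate classes: `N = V(j)^U` for one open normal subgroup `U`, and it contains
`V(j)^U'` for all open `U'`. It is stable under `G`.

Proof. Choose an open subgroup `U₁` with `dim V(j)^U₁` maximal; for open `U'`,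
`V(j)^(U₁ ⊓ U')` contains both `V(j)^U₁` and `V(j)^U'` and has the same dimension as the first. Let
`U` be the normal core of `U₁` (open: finite index and closed, or a finite intersection of conjugates). -/
theorem exists_all_tate (R : PolRep.{u, v} k (2 * j) ℓ) :
    ∃ U : Subgroup (Gal k), IsOpen (U : Set (Gal k)) ∧ U.Normal ∧
      ∀ U' : Subgroup (Gal k), IsOpen (U' : Set (Gal k)) → tateOn R U' ≤ tateOn R U := by
  obtain ⟨N, ⟨U₁, hU₁, rfl⟩, hmax⟩ := set_has_maximal_iff_noetherian.2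
    (inferInstance : IsNoetherian ℚ_[ℓ] R.V)
    {N | ∃ U : Subgroup (Gal k), IsOpen (U : Set (Gal k)) ∧ tateOn R U = N}
    ⟨tateOn R ⊤, ⊤, isOpen_univ, rfl⟩
  obtain ⟨U, hU, hUn, hUU⟩ := Lin1_normal hU₁
  refine ⟨U, hU, hUn, fun U' hU' => ?_⟩
  have h1 : IsOpen ((U₁ ⊓ U' : Subgroup (Gal k)) : Set (Gal k)) := by
    rw [Subgroup.coe_inf]
    exact hU₁.inter hU'
  have h2 : tateOn R U₁ = tateOn R (U₁ ⊓ U') :=
    (Lin1_anti R inf_le_left).eq_of_not_lt (hmax _ ⟨_, h1, rfl⟩)
  calc tateOn R U' ≤ tateOn R (U₁ ⊓ U') := Lin1_anti R inf_le_right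
    _ = tateOn R U₁ := h2.symm
    _ ≤ tateOn R U := Lin1_anti R hUU

end Pool.Agent.T10K
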