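import Pool.Agent.W_b4801b_t10k.Defs

/-! Absolute values of Frobenius eigenvalues. -/

set_option autoImplicit false

noncomputable section

open Polynomial

universe u v

namespace Pool.Agent.T10K

open Pool.Agent.B4801b Pool.Agent.T10

variable {k : Type u} [Field k] {w : ℕ}

/-- Eigenvalues of an invertible matrix all of whose powers are bounded. -/
theorem Norm_aux (ℓ : ℕ) [Fact ℓ.Prime] {G : Type*} [Group G] {n : Type*} [Fintype n]
    [DecidableEq n] (M : G →* Matrix n n ℚ_[ℓ]) (g : G) (C : ℝ)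
    (hC : ∀ m : ℤ, ∀ i j, ‖M (g ^ m) i j‖ ≤ C) (α : PadicAlgCl ℓ) (v : n → PadicAlgCl ℓ)
    (hv : v ≠ 0)
    (hα : ((M g).map (algebraMap ℚ_[ℓ] (PadicAlgCl ℓ))).mulVec v = α • v) : ‖α‖ = 1 := by
  set f : ℚ_[ℓ] →+* PadicAlgCl ℓ := algebraMap ℚ_[ℓ] (PadicAlgCl ℓ) with hf
  obtain ⟨i, hi⟩ := Function.ne_iff.1 hv
  have hvi : 0 < ‖v i‖ := norm_pos_iff.2 hi
  have hpow : ∀ m : ℕ, ((M (g ^ m)).map f).mulVec v = α ^ m • v := by
    intro m
    induction m with
    | zero => rw [pow_zero, map_one, Matrix.map_one f (map_zero f) (map_one f), Matrix.one_mulVec,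
        pow_zero, one_smul]
    | succ m ih =>
      rw [pow_succ, map_mul, Matrix.map_mul, ← Matrix.mulVec_mulVec, hα, Matrix.mulVec_smul, ih,
        smul_smul, pow_succ']
  have hbd : ∀ (m : ℤ) (u : n → PadicAlgCl ℓ),
      ‖((M (g ^ m)).map f).mulVec u i‖ ≤ C * ∑ j, ‖u j‖ := by
    intro m u
    calc ‖((M (g ^ m)).map f).mulVec u i‖ = ‖∑ j, f (M (g ^ m) i j) * u j‖ := rfl
      _ ≤ ∑ j, ‖f (M (g ^ m) i j) * u j‖ := norm_sum_le _ _
      _ ≤ ∑ j, C * ‖u j‖ := by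
          refine Finset.sum_le_sum fun j _ => ?_
          rw [norm_mul]
          refine mul_le_mul_of_nonneg_right ?_ (norm_nonneg _)
          rw [hf, norm_algebraMap']
          exact hC m i j
      _ = C * ∑ j, ‖u j‖ := by rw [Finset.mul_sum]
  set B : ℝ := C * ∑ j, ‖v j‖ with hB
  have h1 : ∀ m : ℕ, ‖α‖ ^ m * ‖v i‖ ≤ B := by
    intro m
    have h := hbd (m : ℤ) v
    rw [zpow_natCast, hpow m, Pi.smul_apply, smul_eq_mul, norm_mul, norm_pow] at h
    exact h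
  have h2 : ∀ m : ℕ, ‖v i‖ ≤ ‖α‖ ^ m * B := by
    intro m
    have h := hbd (-(m : ℤ)) (α ^ m • v)
    rw [← hpow m, Matrix.mulVec_mulVec, ← Matrix.map_mul, ← map_mul, ← zpow_natCast g m, ← zpow_add,
      neg_add_cancel, zpow_zero, map_one, Matrix.map_one f (map_zero f) (map_one f),
      Matrix.one_mulVec, zpow_natCast, hpow m] at h
    refine h.trans (le_of_eq ?_)
    rw [hB]
    have h3 : ∑ j, ‖(α ^ m • v) j‖ = ‖α‖ ^ m * ∑ j, ‖v j‖ := by
      rw [Finset.mul_sum]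
      refine Finset.sum_congr rfl fun j _ => ?_
      rw [Pi.smul_apply, smul_eq_mul, norm_mul, norm_pow]
    rw [h3]
    ring
  have hB0 : 0 < B := by
    have := h1 0
    rw [pow_zero, one_mul] at this
    exact hvi.trans_le this
  apply le_antisymm
  · by_contra hlt
    obtain ⟨m, hm⟩ := pow_unbounded_of_one_lt (B / ‖v i‖) (not_le.1 hlt)
    rw [div_lt_iff₀ hvi] at hm
    exact absurd (h1 m) (not_le.2 hm)
  · by_contra hlt
    obtain ⟨m, hm⟩ := exists_pow_lt_of_lt_one (div_pos hvi hB0) (not_le.1 hlt)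
    rw [lt_div_iff₀ hB0] at hm
    exact absurd (h2 m) (not_le.2 hm)

/-- The matrices of a representation. -/
def Norm_M {ℓ : ℕ} [Fact ℓ.Prime] {G : Type*} [Group G] {V : Type*} [AddCommGroup V]
    [Module ℚ_[ℓ] V] {n : Type*} [Fintype n] [DecidableEq n] (b : Module.Basis n ℚ_[ℓ] V)
    (ρ : Representation ℚ_[ℓ] G V) : G →* Matrix n n ℚ_[ℓ] where
  toFun σ := LinearMap.toMatrix b b (ρ σ)
  map_one' := by rw [map_one, LinearMap.toMatrix_one]
  map_mul' σ τ := by rw [map_mul, LinearMap.toMatrix_mul]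

theorem Norm_M_apply {ℓ : ℕ} [Fact ℓ.Prime] {G : Type*} [Group G] {V : Type*} [AddCommGroup V]
    [Module ℚ_[ℓ] V] {n : Type*} [Fintype n] [DecidableEq n] (b : Module.Basis n ℚ_[ℓ] V)
    (ρ : Representation ℚ_[ℓ] G V) (σ : G) (i j : n) :
    Norm_M b ρ σ i j = b.coord i (ρ σ (b j)) := by
  change LinearMap.toMatrix b b (ρ σ) i j = _
  rw [LinearMap.toMatrix_apply, Module.Basis.coord_apply]

/-- An eigenvector. -/
theorem Norm_vec {ℓ : ℕ} [Fact ℓ.Prime] {G : Type*} [Group G] {V : Type*} [AddCommGroup V]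
    [Module ℚ_[ℓ] V] [FiniteDimensional ℚ_[ℓ] V] {n : Type*} [Fintype n] [DecidableEq n]
    (b : Module.Basis n ℚ_[ℓ] V) (ρ : Representation ℚ_[ℓ] G V) (g : G) (α : PadicAlgCl ℓ)
    (hα : aeval α (ρ g).charpoly = 0) :
    ∃ v : n → PadicAlgCl ℓ, v ≠ 0 ∧
      ((Norm_M b ρ g).map (algebraMap ℚ_[ℓ] (PadicAlgCl ℓ))).mulVec v = α • v := by
  have h1 : (Matrix.scalar n α - (Norm_M b ρ g).map (algebraMap ℚ_[ℓ] (PadicAlgCl ℓ))).det = 0 := by
    rw [← Matrix.eval_charpoly, Matrix.charpoly_map]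
    have h2 : (Norm_M b ρ g).charpoly = (ρ g).charpoly := LinearMap.charpoly_toMatrix (ρ g) b
    rw [h2, Polynomial.eval_map_algebraMap]
    exact hα
  obtain ⟨v, hv, hv2⟩ := Matrix.exists_mulVec_eq_zero_iff.2 h1
  refine ⟨v, hv, ?_⟩
  rw [Matrix.sub_mulVec, sub_eq_zero] at hv2
  rw [← hv2]
  ext i
  simp [Matrix.scalar_apply, Matrix.mulVec_diagonal]

/-- The eigenvalues of an element of a compact group on a continuous representation have norm one.

Proof. Let `α` be an eigenvalue of `ρ(g)`. The coefficients of the characteristic polynomials of the powers `ρ(g ^ n)`,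
`n ∈ ℤ`, are bounded (continuous functions on a compact group), so the roots `α ^ n` are bounded
(a root of a monic polynomial with coefficients of norm at most `C ≥ 1` has norm at most `C`,
ultrametric); hence `‖α‖ = 1`. -/
theorem norm_eigenvalue (ℓ : ℕ) [Fact ℓ.Prime] {G : Type*} [Group G] [TopologicalSpace G]
    [IsTopologicalGroup G] [CompactSpace G] {V : Type*} [AddCommGroup V] [Module ℚ_[ℓ] V]
    [FiniteDimensional ℚ_[ℓ] V] (ρ : Representation ℚ_[ℓ] G V) (hc : IsContinuousRep ρ) (g : G)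
    (α : PadicAlgCl ℓ) (hα : aeval α (ρ g).charpoly = 0) : ‖α‖ = 1 := by
  set b := Module.finBasis ℚ_[ℓ] V with hb
  obtain ⟨v, hv, hv2⟩ := Norm_vec b ρ g α hα
  have h1 : ∀ i j, ∃ C : ℝ, ∀ σ, ‖Norm_M b ρ σ i j‖ ≤ C := by
    intro i j
    have h2 : Continuous fun σ : G => Norm_M b ρ σ i j := by
      simp only [Norm_M_apply]
      exact hc (b.coord i) (b j)
    obtain ⟨C, hC⟩ := (isCompact_univ (X := G)).exists_bound_of_continuousOn h2.continuousOn
    exact ⟨C, fun σ => hC σ (Set.mem_univ σ)⟩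
  choose C hC using h1
  refine Norm_aux ℓ (Norm_M b ρ) g (∑ i, ∑ j, |C i j|) (fun m i j => ?_) α v hv hv2
  refine (hC i j _).trans ((le_abs_self _).trans ?_)
  refine le_trans ?_ (Finset.single_le_sum (f := fun i => ∑ j, |C i j|)
    (fun i _ => Finset.sum_nonneg fun j _ => abs_nonneg _) (Finset.mem_univ i))
  exact Finset.single_le_sum (f := fun j => |C i j|) (fun j _ => abs_nonneg _) (Finset.mem_univ j)

/-- A power of `g` lies in the given neighbourhood of one, with all its powers. -/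
theorem Norm_pow_mem (s : Set (Gal k)) (hs : s ∈ nhds (1 : Gal k)) (g : Gal k) :
    ∃ m : ℕ, 0 < m ∧ ∀ r : ℤ, (g ^ m) ^ r ∈ s := by
  obtain ⟨E, hE1, hE2, hE3⟩ :=
    (krullTopology_mem_nhds_one_iff_of_normal k (AlgebraicClosure k) s).1 hs
  have h1 : (E.fixingSubgroup).FiniteIndex := by
    rw [← IntermediateField.restrictNormalHom_ker]
    exact Subgroup.finiteIndex_ker _
  have hN : (E.fixingSubgroup).Normal := by
    rw [← IntermediateField.restrictNormalHom_ker]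
    exact MonoidHom.normal_ker _
  refine ⟨E.fixingSubgroup.index, Nat.pos_of_ne_zero h1.index_ne_zero, fun r => hE3 ?_⟩
  exact Subgroup.zpow_mem _ (Subgroup.pow_index_mem _ g) r

/-- Proof. `norm_eigenvalue` for `V_ℓ'` (`Gal k` is compact), as `P_x` is the characteristic polynomial
of `F_x` on `V_ℓ'`. -/
theorem norm_root (S : CompSys.{u, v} k w) (x : Place k) (hx : x ∈ S.Pl) (ℓ : ℕ) [Fact ℓ.Prime]
    (hℓ : ℓ ≠ x.p) (α : PadicAlgCl ℓ) (hα : aeval α (S.P x) = 0) : ‖α‖ = 1 := by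
  have hα' : aeval α ((S.rep ℓ).ρ x.frob).charpoly = 0 := by
    have h1 : ((S.rep ℓ).ρ x.frob).charpoly = (S.P x).map (algebraMap ℚ ℚ_[ℓ]) :=
      S.charpoly_frob x hx ℓ hℓ
    rw [h1, Polynomial.aeval_map_algebraMap]
    exact hα
  set b := Module.finBasis ℚ_[ℓ] (S.rep ℓ).V with hb
  obtain ⟨v, hv, hv2⟩ := Norm_vec b (S.rep ℓ).ρ x.frob α hα'
  have hs : {σ : Gal k | ∀ i j, ‖Norm_M b (S.rep ℓ).ρ σ i j‖ < 2} ∈ nhds (1 : Gal k) := by
    have h2 : ∀ i j, Continuous fun σ : Gal k => Norm_M b (S.rep ℓ).ρ σ i j := by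
      intro i j
      simp only [Norm_M_apply]
      exact (S.rep ℓ).continuous (b.coord i) (b j)
    have h3 : ∀ i j, {σ : Gal k | ‖Norm_M b (S.rep ℓ).ρ σ i j‖ < 2} ∈ nhds (1 : Gal k) := by
      intro i j
      refine ((h2 i j).norm.isOpen_preimage _ isOpen_Iio).mem_nhds ?_
      change ‖Norm_M b (S.rep ℓ).ρ 1 i j‖ < 2
      rw [map_one, Matrix.one_apply]
      split_ifs
      · rw [norm_one]; norm_num
      · rw [norm_zero]; norm_num
    have h4 : {σ : Gal k | ∀ i j, ‖Norm_M b (S.rep ℓ).ρ σ i j‖ < 2} =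
        ⋂ i, ⋂ j, {σ : Gal k | ‖Norm_M b (S.rep ℓ).ρ σ i j‖ < 2} := by
      ext σ
      simp
    rw [h4]
    exact Filter.iInter_mem.2 fun i => Filter.iInter_mem.2 fun j => h3 i j
  obtain ⟨m, hm, hr⟩ := Norm_pow_mem _ hs x.frob
  have hpow : ∀ r : ℕ, ((Norm_M b (S.rep ℓ).ρ (x.frob ^ r)).map
      (algebraMap ℚ_[ℓ] (PadicAlgCl ℓ))).mulVec v = α ^ r • v := by
    intro r
    induction r with
    | zero => rw [pow_zero, map_one, Matrix.map_one _ (map_zero _) (map_one _), Matrix.one_mulVec,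
        pow_zero, one_smul]
    | succ r ih =>
      rw [pow_succ, map_mul, Matrix.map_mul, ← Matrix.mulVec_mulVec, hv2, Matrix.mulVec_smul, ih,
        smul_smul, pow_succ']
  have h5 := Norm_aux ℓ (Norm_M b (S.rep ℓ).ρ) (x.frob ^ m) 2 (fun r i j => (hr r i j).le)
    (α ^ m) v hv (hpow m)
  rw [norm_pow] at h5
  exact (pow_eq_one_iff_of_nonneg (norm_nonneg _) hm.ne').1 h5

/-- Proof. `χ_ℓ(F_x)` is a unit of `ℤ_ℓ` and `χ_ℓ(F_x) q = 1`. -/
theorem norm_q (x : Place k) (ℓ : ℕ) [Fact ℓ.Prime] (hℓ : ℓ ≠ x.p) : ‖(x.q : ℚ_[ℓ])‖ = 1 := by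
  have h1 := x.cyc_frob ℓ hℓ
  have h2 : ‖cyc k ℓ x.frob‖ = 1 := by
    unfold cyc
    rw [PadicInt.padic_norm_e_of_padicInt]
    exact PadicInt.norm_units _
  have h3 := congrArg norm h1
  rw [norm_mul, h2, one_mul, norm_one] at h3
  exact h3

end Pool.Agent.T10K
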