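import Pool.Agent.W_b4801b_t10k.Res
import Pool.Agent.W_MP_b4801b_h67.Transfer
import Pool.Agent.W_MP_b4801b_h67.Main

/-! Semisimplicity from one place which passes the Newton test. -/

set_option autoImplicit false

noncomputable section

open Polynomial Module

universe u v

namespace Pool.Agent.T10K

open Pool.Agent.B4801b Pool.Agent.T10

/-- There is no complex number `a` such that `a ^ 2 / c` is a root of unity and the pair `a, c / a` is
contained in the multiset of the roots of `P` (so the roots of `P` which are products of a square root of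
`c` and a root of unity are at most the two square roots of `c`, each with multiplicity at most one). -/
def NoTatePair (P : ℚ[X]) (c : ℚ) : Prop :=
  ∀ a : ℂ, ({a, (c : ℂ) / a} : Multiset ℂ) ≤ P.aroots ℂ → ∀ m : ℕ, 0 < m → a ^ (2 * m) ≠ (c : ℂ) ^ m

theorem noTatePair_transfer (P : ℚ[X]) (c : ℚ) (h : NoTatePair P c) (M : Type*) [Field M]
    [Algebra ℚ M] [IsAlgClosed M] (a : M)
    (ha : ({a, algebraMap ℚ M c / a} : Multiset M) ≤ P.aroots M) (m : ℕ) (hm : 0 < m) :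
    a ^ (2 * m) ≠ algebraMap ℚ M c ^ m := by
  let L := AlgebraicClosure ℚ
  have : Algebra.IsAlgebraic ℚ L := AlgebraicClosure.isAlgebraic ℚ
  let i : L →ₐ[ℚ] M := IsAlgClosed.lift
  let j : L →ₐ[ℚ] ℂ := IsAlgClosed.lift
  have hi : Function.Injective (i : L → M) := i.toRingHom.injective
  obtain ⟨b, rfl⟩ : ∃ b : L, i b = a := by
    have h1 : a ∈ P.aroots M := Multiset.mem_of_le ha (Multiset.mem_cons_self _ _)
    rw [aroots_map_of_closed i] at h1
    obtain ⟨b, _, hb⟩ := Multiset.mem_map.mp h1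
    exact ⟨b, hb⟩
  have h1 : ({b, algebraMap ℚ L c / b} : Multiset L) ≤ P.aroots L := by
    rw [← Multiset.map_le_map_iff hi, ← aroots_map_of_closed i]
    refine le_trans (le_of_eq ?_) ha
    rw [Multiset.insert_eq_cons, Multiset.map_cons, Multiset.map_singleton, map_div₀, i.commutes]
    rfl
  have h2 : ({j b, (c : ℂ) / j b} : Multiset ℂ) ≤ P.aroots ℂ := by
    rw [aroots_map_of_closed j]
    refine le_trans (le_of_eq ?_) (Multiset.map_le_map h1)
    rw [Multiset.insert_eq_cons, Multiset.insert_eq_cons, Multiset.map_cons, Multiset.map_singleton,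
      map_div₀, j.commutes]
    rfl
  intro h3
  refine h (j b) h2 m hm ?_
  have h4 : b ^ (2 * m) = algebraMap ℚ L c ^ m := by
    apply hi
    rw [map_pow, map_pow, i.commutes]
    exact h3
  have h5 := congrArg j h4
  rw [map_pow, map_pow, j.commutes] at h5
  exact h5

/-- The eigenvalues of a similitude `A` of ratio `c` on an isotropic stable subspace `W`. -/
theorem relation_restrict {K : Type*} [Field K] {V : Type*} [AddCommGroup V] [Module K V]
    (L : Type*) [Field L] [IsAlgClosed L] [Algebra K L] [Infinite K]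
    [FiniteDimensional K V]
    (ψ : LinearMap.BilinForm K V) (hψ : Nondeg ψ) (A : Module.End K V) (c : K) (hc : c ≠ 0)
    (hA : ∀ x y, ψ (A x) (A y) = c * ψ x y) (W : Submodule K V) (hW : ∀ x ∈ W, A x ∈ W)
    (hI : ∀ x ∈ W, ∀ y ∈ W, ψ x y = 0) :
    (A.restrict hW).charpoly.aroots L +
      ((A.restrict hW).charpoly.aroots L).map (fun a => algebraMap K L c / a) ≤
        A.charpoly.aroots L := by
  obtain ⟨B, hB, h3⟩ := charpoly_isotropic ψ hψ A c hc hA W hW hI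
  have h4 := Polynomial.map_dvd (algebraMap K L) h3
  rw [Polynomial.map_mul, charpoly_dual_map L B c, hB, charpoly_map_eq_prod L (A.restrict hW),
    ← Multiset.prod_add] at h4
  have h5 := Polynomial.roots.le_of_dvd ((LinearMap.charpoly_monic A).map (algebraMap K L)).ne_zero h4
  refine le_trans (le_of_eq ?_) h5
  have h6 : ((A.restrict hW).charpoly.aroots L).map (fun a => X - C (algebraMap K L c / a)) =
      (((A.restrict hW).charpoly.aroots L).map (fun a => algebraMap K L c / a)).map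
        (fun a => X - C a) := by
    rw [Multiset.map_map]
    rfl
  rw [h6, ← Multiset.map_add, Polynomial.roots_multiset_prod_X_sub_C]

variable {k : Type u} [Field k]

/-- One place which passes the Newton test and has no pair of roots of Tate type suffices for
the semisimplicity of `V_ℓ`. -/
theorem semisimple_of_one {j : ℕ} (S : CompSys.{u, v} k (2 * j)) (ℓ : ℕ) [Fact ℓ.Prime]
    (hbal : BalRep (S.rep ℓ)) (x : Place k) (hx : x ∈ S.Pl) (hℓ : ℓ ≠ x.p)
    (hN : NewtonTest (S.P x) ((x.q : ℚ) ^ (2 * j)) x.p)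
    (hT : NoTatePair (S.P x) ((x.q : ℚ) ^ (2 * j))) : (S.rep ℓ).Semisimple := by
  obtain ⟨N, hN0, hbal⟩ := hbal
  have hb := res_balanced _ N hbal
  obtain ⟨M, hM, hroot⟩ := frob_eigenvalue S
  have hqcyc := x.cyc_frob ℓ hℓ
  have hq0 : (x.q : ℚ_[ℓ]) ≠ 0 := right_ne_zero_of_mul_eq_one hqcyc
  have hqc : ((x.q : ℚ_[ℓ]) ^ (2 * j)) ≠ 0 := pow_ne_zero _ hq0
  have hchar : ((S.rep ℓ).ρ x.frob).charpoly = (S.P x).map (algebraMap ℚ ℚ_[ℓ]) :=
    S.charpoly_frob x hx ℓ hℓ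
  have hφc : ∀ a b, (S.rep ℓ).ψ ((S.rep ℓ).ρ x.frob a) ((S.rep ℓ).ρ x.frob b) =
      (x.q : ℚ_[ℓ]) ^ (2 * j) * (S.rep ℓ).ψ a b := by
    intro a b
    rw [← (S.rep ℓ).equivariant x.frob a b, ← mul_assoc, ← mul_pow, mul_comm (x.q : ℚ_[ℓ]),
      x.cyc_frob ℓ hℓ, one_pow, one_mul]
  intro W hW
  have hperp : ∀ σ, ∀ y ∈ perp (S.rep ℓ).ψ W, (S.rep ℓ).ρ σ y ∈ perp (S.rep ℓ).ψ W := by
    intro σ y hy z hz
    have h1 : (S.rep ℓ).ρ σ ((S.rep ℓ).ρ σ⁻¹ z) = z := by
      rw [← Module.End.mul_apply, ← map_mul, mul_inv_cancel, map_one, Module.End.one_apply]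
    have h2 : (S.rep ℓ).ψ ((S.rep ℓ).ρ σ⁻¹ z) y = 0 := hy _ (hW _ _ hz)
    have h3 := (S.rep ℓ).equivariant σ ((S.rep ℓ).ρ σ⁻¹ z) y
    rw [h1, h2] at h3
    rcases mul_eq_zero.mp h3 with h | h
    · have : ∀ a b, (S.rep ℓ).ψ a b = 0 := fun a b => by
        rw [← (S.rep ℓ).equivariant σ a b, h, zero_mul]
      exact this _ _
    · exact h
  refine ⟨perp (S.rep ℓ).ψ W, hperp, isCompl_perp _ _ ?_⟩
  have hI : ∀ σ, ∀ y ∈ W ⊓ perp (S.rep ℓ).ψ W, (S.rep ℓ).ρ σ y ∈ W ⊓ perp (S.rep ℓ).ψ W :=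
    fun σ y hy => ⟨hW σ y hy.1, hperp σ y hy.2⟩
  have hiso : ∀ a ∈ W ⊓ perp (S.rep ℓ).ψ W, ∀ b ∈ W ⊓ perp (S.rep ℓ).ψ W, (S.rep ℓ).ψ a b = 0 :=
    fun a ha b hb => hb.2 a ha.1
  have hbot : W ⊓ perp (S.rep ℓ).ψ W = ⊥ := by
    by_contra hne
    have hrel := relation_restrict (AlgebraicClosure ℚ_[ℓ]) (S.rep ℓ).ψ
      (S.rep ℓ).nondeg ((S.rep ℓ).ρ x.frob) _ hqc hφc (W ⊓ perp (S.rep ℓ).ψ W) (hI x.frob) hiso
    have hpos : 0 < finrank ℚ_[ℓ] ↥(W ⊓ perp (S.rep ℓ).ψ W) :=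
      Nat.pos_of_ne_zero fun h0 => hne (Submodule.finrank_eq_zero.mp h0)
    have hcard := card_aroots (AlgebraicClosure ℚ_[ℓ])
      (((S.rep ℓ).ρ x.frob).restrict (hI x.frob))
    obtain ⟨β, hβ⟩ := Multiset.card_pos_iff_exists_mem.1 (hcard.symm ▸ hpos)
    have h1 := hroot ℓ N hN0 hb x hx hℓ hN _ hI hiso β (Polynomial.mem_aroots.1 hβ).2
    have hle : ({β, algebraMap ℚ (AlgebraicClosure ℚ_[ℓ]) ((x.q : ℚ) ^ (2 * j)) / β} :
        Multiset (AlgebraicClosure ℚ_[ℓ])) ≤ (S.P x).aroots (AlgebraicClosure ℚ_[ℓ]) := by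
      have e1 : ((S.P x).map (algebraMap ℚ ℚ_[ℓ])).aroots (AlgebraicClosure ℚ_[ℓ]) =
          (S.P x).aroots (AlgebraicClosure ℚ_[ℓ]) := by
        rw [Polynomial.aroots, Polynomial.aroots, Polynomial.map_map,
          ← IsScalarTower.algebraMap_eq]
      rw [hchar, e1] at hrel
      refine le_trans ?_ hrel
      rw [Multiset.insert_eq_cons, ← Multiset.singleton_add]
      refine add_le_add (Multiset.singleton_le.2 hβ) (Multiset.singleton_le.2 ?_)
      refine Multiset.mem_map.2 ⟨β, hβ, ?_⟩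
      simp only [map_pow, map_natCast]
    refine noTatePair_transfer _ _ hT (AlgebraicClosure ℚ_[ℓ]) β hle M hM ?_
    have h2 : algebraMap ℚ_[ℓ] (AlgebraicClosure ℚ_[ℓ]) (cyc k ℓ x.frob) *
        (x.q : AlgebraicClosure ℚ_[ℓ]) = 1 := by
      have h3 := congrArg (algebraMap ℚ_[ℓ] (AlgebraicClosure ℚ_[ℓ])) hqcyc
      rwa [map_mul, map_natCast, map_one] at h3
    have h4 : (x.q : AlgebraicClosure ℚ_[ℓ]) ^ (2 * j * M) *
        (algebraMap ℚ_[ℓ] (AlgebraicClosure ℚ_[ℓ]) (cyc k ℓ x.frob) ^ j * β) ^ (2 * M) =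
        β ^ (2 * M) := by
      rw [mul_pow, ← mul_assoc, ← pow_mul, show j * (2 * M) = 2 * j * M by ring, ← mul_pow,
        mul_comm (x.q : AlgebraicClosure ℚ_[ℓ]), h2, one_pow, one_mul]
    rw [← h4, h1, mul_one, map_pow, map_natCast, ← pow_mul]
  intro y hy hy'
  have hyI : y ∈ W ⊓ perp (S.rep ℓ).ψ W := ⟨hy, hy'⟩
  rw [hbot] at hyI
  exact (Submodule.mem_bot _).mp hyI

end Pool.Agent.T10K
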