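import Pool.Agent.W_b4801b_t10k.Final
import Pool.Agent.W_MP_b4801b_h67.Defs2

/-! The Newton test theorem, with short definitions. -/

set_option autoImplicit false

noncomputable section

open Polynomial

universe u v

namespace Pool.Agent.T10K

open Pool.Agent.B4801b Pool.Agent.T10

section Generic

variable {K : Type*} [Field K] {V : Type*} [AddCommGroup V] [Module K V] {G : Type*} [Group G]

/-- The subspace `W` is totally isotropic for the pairing. -/
def Isotropic (ψ : V →ₗ[K] V →ₗ[K] K) (W : Submodule K V) : Prop := ∀ x ∈ W, ∀ y ∈ W, ψ x y = 0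

/-- The determinants of the isotropic stable subspaces of the twist `V ⊗ χ` satisfy
`det ^ (2 N) = 1`. -/
def Balanced (ρ : Representation K G V) (ψ : V →ₗ[K] V →ₗ[K] K) (χ : G → K) (N : ℕ) : Prop :=
  ∀ (W : Submodule K V) (hW : IsStable ρ W), Isotropic ψ W → ∀ σ,
    (detOn ρ W hW σ * χ σ ^ Module.finrank K W) ^ (2 * N) = 1

/-- The action of `σ` on the twist `V ⊗ χ`. -/
def tw (ρ : Representation K G V) (χ : G → K) (σ : G) (x : V) : V := χ σ • ρ σ x

/-- `U` acts on the subspace `W` of `V ⊗ χ` unipotently. -/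
def UnipOn (ρ : Representation K G V) (χ : G → K) (U : Subgroup G) (W : Submodule K V) : Prop :=
  ∃ n : ℕ, ∀ σ ∈ U, ∀ x ∈ W, (fun y => tw ρ χ σ y - y)^[n] x = 0

/-- `U` acts on the subspace `W` of `V ⊗ χ` trivially. -/
def FixOn (ρ : Representation K G V) (χ : G → K) (U : Subgroup G) (W : Submodule K V) : Prop :=
  ∀ σ ∈ U, ∀ x ∈ W, tw ρ χ σ x = x

/-- If some open subgroup acts unipotently on a stable subspace of `V ⊗ χ` then some open subgroup acts
trivially. -/
def UnipTriv [TopologicalSpace G] (ρ : Representation K G V) (χ : G → K) : Prop :=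
  ∀ W : Submodule K V, IsStable ρ W → (∃ U : Subgroup G, IsOpen (U : Set G) ∧ UnipOn ρ χ U W) →
    ∃ U : Subgroup G, IsOpen (U : Set G) ∧ FixOn ρ χ U W

/-- `v` is fixed by `U` in the twist `V ⊗ χ` (a Tate class over a finite extension). -/
def FixVec (ρ : Representation K G V) (χ : G → K) (U : Subgroup G) (v : V) : Prop :=
  ∀ σ ∈ U, tw ρ χ σ v = v

/-- For every open `U` the pairing is nondegenerate on the vectors of `V ⊗ χ` fixed by `U`. -/
def FixNondeg [TopologicalSpace G] (ρ : Representation K G V) (ψ : V →ₗ[K] V →ₗ[K] K)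
    (χ : G → K) : Prop :=
  ∀ U : Subgroup G, IsOpen (U : Set G) → ∀ v, FixVec ρ χ U v →
    (∀ v', FixVec ρ χ U v' → ψ v v' = 0) → v = 0

end Generic

/-- The character `χ_ℓ ^ j`. -/
def cycPow (k : Type u) [Field k] (ℓ : ℕ) [Fact ℓ.Prime] (j : ℕ) (σ : Gal k) : ℚ_[ℓ] :=
  cyc k ℓ σ ^ j

variable {k : Type u} [Field k]

/-- All Frobenius polynomials of the system (of weight `2 j`) pass the Newton test. -/
def Newton {j : ℕ} (S : CompSys.{u, v} k (2 * j)) : Prop :=
  ∀ x ∈ S.Pl, NewtonTest (S.P x) ((x.q : ℚ) ^ (2 * j)) x.p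

section Rep

variable {j ℓ : ℕ} [Fact ℓ.Prime]

/-- For some `N > 0` the determinants of the isotropic stable subspaces of `V(j)` satisfy
`det ^ (2 N) = 1`. -/
def BalRep (R : PolRep.{u, v} k (2 * j) ℓ) : Prop :=
  ∃ N : ℕ, 0 < N ∧ Balanced R.ρ R.ψ (cycPow k ℓ j) N

/-- Potentially unipotent stable subspaces of `V(j)` are potentially trivial. -/
def UnipTrivRep (R : PolRep.{u, v} k (2 * j) ℓ) : Prop := UnipTriv R.ρ (cycPow k ℓ j)

/-- Every isotropic stable subspace `W` consists of Tate classes over a finite extension: an open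
subgroup acts trivially on `W(j)`. -/
def IsotropicTate (R : PolRep.{u, v} k (2 * j) ℓ) : Prop :=
  ∀ W, IsStable R.ρ W → Isotropic R.ψ W →
    ∃ U : Subgroup (Gal k), IsOpen (U : Set (Gal k)) ∧ FixOn R.ρ (cycPow k ℓ j) U W

/-- The pairing is nondegenerate on the Tate classes `V(j)^U`, for every open subgroup `U`. -/
def TateNondegRep (R : PolRep.{u, v} k (2 * j) ℓ) : Prop := FixNondeg R.ρ R.ψ (cycPow k ℓ j)

end Rep

theorem res_tw {j ℓ : ℕ} [Fact ℓ.Prime] (R : PolRep.{u, v} k (2 * j) ℓ) (σ : Gal k) (x : R.V) :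
    tw R.ρ (cycPow k ℓ j) σ x = twist R σ x := rfl

theorem res_iter {j ℓ : ℕ} [Fact ℓ.Prime] (R : PolRep.{u, v} k (2 * j) ℓ) (σ : Gal k) (n : ℕ)
    (x : R.V) : (fun y => tw R.ρ (cycPow k ℓ j) σ y - y)^[n] x = ((twist R σ - 1) ^ n) x := by
  rw [Module.End.pow_apply]
  rfl

theorem res_balanced {j ℓ : ℕ} [Fact ℓ.Prime] (R : PolRep.{u, v} k (2 * j) ℓ) (N : ℕ)
    (h : Balanced R.ρ R.ψ (cycPow k ℓ j) N) : IsoBalanced R N := by
  intro W hW hI σ
  have := h W hW hI σ
  rw [cycPow, ← pow_mul, detOn, detEnd, subOp] at this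
  exact this

theorem res_unip {j ℓ : ℕ} [Fact ℓ.Prime] (R : PolRep.{u, v} k (2 * j) ℓ)
    (h : UnipTriv R.ρ (cycPow k ℓ j)) : UnipotentFinite R := by
  intro W hW ⟨U, hU, n, hn⟩
  obtain ⟨U', hU', h'⟩ := h W hW ⟨U, hU, n, fun σ hσ x hx => by
    rw [res_iter]
    exact hn σ hσ x hx⟩
  exact ⟨U', hU', fun σ hσ x hx => h' σ hσ x hx⟩

theorem res_nondeg {j ℓ : ℕ} [Fact ℓ.Prime] (R : PolRep.{u, v} k (2 * j) ℓ) :
    TateNondeg R ↔ TateNondegRep R := by
  constructor
  · intro h U hU v hv h'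
    exact h U hU v hv (fun v' hv' => h' v' hv')
  · intro h U hU v hv h'
    exact h U hU v hv (fun v' hv' => h' v' hv')

end Pool.Agent.T10K
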