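import Pool.Agent.W_b4801b_t10k.Norm
import Pool.Agent.W_b4801b_t10k.Kron

/-! The eigenvalue criterion: embeddings of the splitting field and the Newton test. -/

set_option autoImplicit false

noncomputable section

open Polynomial

universe u v

namespace Pool.Agent.T10K

open Pool.Agent.B4801b Pool.Agent.T10

/-- Embeddings transport the multiset inclusion. -/
theorem root1_embed {K Ω' : Type*} [Field K] [Field Ω'] [Algebra ℚ K] [Algebra ℚ Ω'] (P : ℚ[X])
    (hP : P ≠ 0) (c : ℚ) (R : Multiset K)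
    (hR : R + R.map (fun β => algebraMap ℚ K c / β) ≤ P.aroots K) (τ : K →ₐ[ℚ] Ω') :
    R.map τ + (R.map τ).map (fun β => algebraMap ℚ Ω' c / β) ≤ P.aroots Ω' := by
  have h1 : (R + R.map (fun β => algebraMap ℚ K c / β)).map τ ≤ (P.aroots K).map τ :=
    Multiset.map_le_map hR
  have h2 : (P.aroots K).map τ ≤ P.aroots Ω' := by
    have h3 : ((P.map (algebraMap ℚ K)).map (τ : K →+* Ω')) = P.map (algebraMap ℚ Ω') := by
      rw [Polynomial.map_map]
      congr 1
      exact τ.comp_algebraMap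
    have h4 := Polynomial.map_roots_le (p := P.map (algebraMap ℚ K)) (f := (τ : K →+* Ω'))
      (by
        rw [h3]
        exact (Polynomial.map_ne_zero_iff (algebraMap ℚ Ω').injective).mpr hP)
    rw [h3] at h4
    exact h4
  refine le_trans (le_of_eq ?_) (h1.trans h2)
  rw [Multiset.map_add, Multiset.map_map, Multiset.map_map]
  congr 1
  refine Multiset.map_congr rfl fun β _ => ?_
  simp

/-- The degree of `β ^ 2 / c` is at most that of `β`. -/
theorem root1_degree {F K : Type*} [Field F] [Field K] [Algebra F K] (P : F[X]) (hP : P ≠ 0) (c : F)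
    (β : K) (hβ : aeval β P = 0) :
    (minpoly F (β ^ 2 / algebraMap F K c)).natDegree ≤ P.natDegree := by
  have hint : IsIntegral F β := (show IsAlgebraic F β from ⟨P, hP, hβ⟩).isIntegral
  have : FiniteDimensional F (IntermediateField.adjoin F {β}) :=
    IntermediateField.adjoin.finiteDimensional hint
  have h1 : (minpoly F β).natDegree ≤ P.natDegree :=
    Polynomial.natDegree_le_of_dvd (minpoly.dvd F β hβ) hP
  have h2 : Module.finrank F (IntermediateField.adjoin F {β}) = (minpoly F β).natDegree :=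
    IntermediateField.adjoin.finrank hint
  have h3 := minpoly.natDegree_le (A := F)
    ((IntermediateField.AdjoinSimple.gen F β) ^ 2 /
      algebraMap F (IntermediateField.adjoin F {β}) c)
  have h4 : minpoly F (β ^ 2 / algebraMap F K c) =
      minpoly F ((IntermediateField.AdjoinSimple.gen F β) ^ 2 /
        algebraMap F (IntermediateField.adjoin F {β}) c) := by
    rw [← minpoly.algHom_eq (IntermediateField.adjoin F {β}).val
      (IntermediateField.adjoin F {β}).val.injective]
    congr 1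
  rw [h4]
  omega

/-- Multisets of elements of the range lift. -/
theorem root1_lift {α β : Type*} (f : α → β) (R : Multiset β) (h : ∀ x ∈ R, ∃ y, f y = x) :
    ∃ S : Multiset α, S.map f = R := by
  induction R using Multiset.induction_on with
  | empty => exact ⟨0, rfl⟩
  | cons a s ih =>
    obtain ⟨S, hS⟩ := ih fun x hx => h x (Multiset.mem_cons_of_mem hx)
    obtain ⟨y, hy⟩ := h a (Multiset.mem_cons_self a s)
    exact ⟨y ::ₘ S, by rw [Multiset.map_cons, hy, hS]⟩

/-- A splitting field inside an algebraically closed field. -/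
theorem root1_split {F Ω : Type} [Field F] [Field Ω] [Algebra F Ω] [IsAlgClosed Ω] (P : F[X]) :
    ∃ (K : Type) (_ : Field K) (_ : Algebra F K) (_ : Algebra K Ω) (_ : IsScalarTower F K Ω)
      (_ : Algebra.IsAlgebraic F K),
      (P.map (algebraMap F K)).Splits ∧
      (P.aroots K).map (algebraMap K Ω) = P.aroots Ω := by
  have h := IntermediateField.adjoin_rootSet_isSplittingField
      (IsAlgClosed.splits (P.map (algebraMap F Ω)))
  have h2 : FiniteDimensional F (IntermediateField.adjoin F (P.rootSet Ω)) :=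
    Polynomial.IsSplittingField.finiteDimensional _ P
  refine ⟨IntermediateField.adjoin F (P.rootSet Ω), inferInstance, inferInstance, inferInstance,
    inferInstance, inferInstance, ?_, ?_⟩
  · exact Polynomial.IsSplittingField.splits _ P
  · exact (Polynomial.IsSplittingField.splits _ P).map_aroots_algebraMap

theorem root1_norm_rat (ℓ : ℕ) [Fact ℓ.Prime] (c : ℚ) :
    ‖algebraMap ℚ (PadicAlgCl ℓ) c‖ = ‖(c : ℚ_[ℓ])‖ := by
  have h : algebraMap ℚ (PadicAlgCl ℓ) c = algebraMap ℚ_[ℓ] (PadicAlgCl ℓ) (c : ℚ_[ℓ]) := by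
    simp
  rw [h]
  exact PadicAlgCl.norm_extends ℓ _

/-- Let `R` be a multiset in an algebraically closed field `Ω` (characteristic zero) with
`R + c / R ≤ roots of P` and `∏ (β ^ 2 / c) ^ N = 1` (`N > 0`), `P ∈ ℚ[X]` passing the Newton test at `p`,
with roots of norm `1` at the primes `≠ p` and complex roots with `|z|² = c`. Then `(β ^ 2 / c) ^ M = 1`
for `β ∈ R`, `M > 0` depending only on the degree of `P`.

Proof. `M` = the number of `kronecker` for `d = natDegree`. Let `K ⊆ Ω` be generated by the roots of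
`P` (a splitting field), `β ∈ R`, `f` = the minimal polynomial over `ℚ` of `u = β ^ 2 / c`, of degree at most that of `P`
(`u ∈ ℚ(β)`). Every root of `f` in a field `Ω'` is `τ(u)` for an embedding `τ : K → Ω'` (`Ω'` algebraically
closed; `K / ℚ` normal: extend `ℚ(u) → Ω'`), so equal to `τ(β) ^ 2 / c` with `τ(β)` a root of `P`.
`Ω' = ℂ`: absolute value `1`. `Ω' = PadicAlgCl ℓ'`, `ℓ' ≠ p`: norm `1` (`norm_c`). `Ω' = PadicAlgCl p`: the
multiset `τ(R)` satisfies `τ(R) + c / τ(R) ≤` roots of `P` and `∏ ‖τ(β) ^ 2 / c‖ ^ N = 1`, so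
`∏ = 1` and the Newton test gives `‖τ(β) ^ 2 / c‖ = 1`. Conclude by `kronecker`. -/
theorem root_of_test (d : ℕ) : ∃ M : ℕ, 0 < M ∧ ∀ (Ω : Type) [Field Ω] [Algebra ℚ Ω] [IsAlgClosed Ω]
    (P : ℚ[X]) (c : ℚ) (p N : ℕ) (R : Multiset Ω), P ≠ 0 → P.natDegree ≤ d → 0 < c → 0 < N →
    (∀ z : ℂ, aeval z P = 0 → ‖z‖ ^ 2 = (c : ℝ)) →
    (∀ (ℓ : ℕ) [Fact ℓ.Prime], ℓ ≠ p → ‖(c : ℚ_[ℓ])‖ = 1) →
    (∀ (ℓ : ℕ) [Fact ℓ.Prime] (α : PadicAlgCl ℓ), ℓ ≠ p → aeval α P = 0 → ‖α‖ = 1) →
    NewtonTest P c p →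
    R + R.map (fun β => algebraMap ℚ Ω c / β) ≤ P.aroots Ω →
    (R.map fun β => (β ^ 2 / algebraMap ℚ Ω c) ^ N).prod = 1 →
    ∀ β ∈ R, (β ^ 2 / algebraMap ℚ Ω c) ^ M = 1 := by
  obtain ⟨M, hM, hkron⟩ := kronecker d
  refine ⟨M, hM, ?_⟩
  intro Ω _ _ _ P c p N R hP hd hc hN hC hcl hl hNT hR hprod β hβ
  -- the splitting field
  obtain ⟨K, _, _, _, _, _, -, haroots⟩ := root1_split (Ω := Ω) P
  have hinj : Function.Injective (algebraMap K Ω) := (algebraMap K Ω).injective
  -- lift the multiset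
  obtain ⟨RK, hRKe⟩ : ∃ RK : Multiset K, RK.map (algebraMap K Ω) = R := by
    refine root1_lift (algebraMap K Ω) R fun x hx => ?_
    have h1 := Multiset.mem_of_le hR (Multiset.mem_add.mpr (Or.inl hx))
    rw [← haroots, Multiset.mem_map] at h1
    obtain ⟨y, -, hy⟩ := h1
    exact ⟨y, hy⟩
  have hcomm : ∀ a : ℚ, algebraMap K Ω (algebraMap ℚ K a) = algebraMap ℚ Ω a := fun a =>
    (IsScalarTower.algebraMap_apply ℚ K Ω a).symm
  have hRK' : RK + RK.map (fun β => algebraMap ℚ K c / β) ≤ P.aroots K := by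
    rw [← Multiset.map_le_map_iff hinj, haroots]
    refine le_trans (le_of_eq ?_) hR
    rw [Multiset.map_add, ← hRKe, Multiset.map_map, Multiset.map_map]
    congr 1
    refine Multiset.map_congr rfl fun y _ => ?_
    simp only [Function.comp, map_div₀, hcomm]
  have hprodK : (RK.map fun β => (β ^ 2 / algebraMap ℚ K c) ^ N).prod = 1 := by
    apply hinj
    rw [map_multiset_prod, map_one, Multiset.map_map, ← hprod, ← hRKe, Multiset.map_map]
    refine congrArg _ (Multiset.map_congr rfl fun y _ => ?_)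
    simp only [Function.comp, map_div₀, map_pow, hcomm]
  obtain ⟨βK, hβK, hβe⟩ : ∃ b ∈ RK, algebraMap K Ω b = β := by
    rw [← hRKe, Multiset.mem_map] at hβ
    exact hβ
  have haevalΩ : aeval β P = 0 := by
    have h := Multiset.mem_of_le hR (Multiset.mem_add.mpr (Or.inl hβ))
    rw [Polynomial.mem_aroots'] at h
    exact h.2
  have haevalK : aeval βK P = 0 := by
    have h := Multiset.mem_of_le hRK' (Multiset.mem_add.mpr (Or.inl hβK))
    rw [Polynomial.mem_aroots'] at h
    exact h.2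
  set u : K := βK ^ 2 / algebraMap ℚ K c with hu
  have huΩ : algebraMap K Ω u = β ^ 2 / algebraMap ℚ Ω c := by
    rw [hu, map_div₀, map_pow, hβe, hcomm]
  have huint : IsIntegral ℚ u := Algebra.IsIntegral.isIntegral u
  -- roots of the minimal polynomial
  have hemb : ∀ (Ω' : Type) [Field Ω'] [Algebra ℚ Ω'] [IsAlgClosed Ω'] (z : Ω'),
      aeval z (minpoly ℚ u) = 0 → ∃ τ : K →ₐ[ℚ] Ω', z = τ βK ^ 2 / algebraMap ℚ Ω' c := by
    intro Ω' _ _ _ z hz
    have h1 : z ∈ (minpoly ℚ u).rootSet Ω' := by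
      rw [Polynomial.mem_rootSet]
      exact ⟨minpoly.ne_zero huint, hz⟩
    rw [← Algebra.IsAlgebraic.range_eval_eq_rootSet_minpoly Ω' u] at h1
    obtain ⟨τ, hτ⟩ := h1
    refine ⟨τ, ?_⟩
    rw [← hτ]
    simp [hu]
  have haevalτ : ∀ (Ω' : Type) [Field Ω'] [Algebra ℚ Ω'] (τ : K →ₐ[ℚ] Ω'),
      aeval (τ βK) P = 0 := by
    intro Ω' _ _ τ
    rw [Polynomial.aeval_algHom_apply, haevalK, map_zero]
  have hminpoly : minpoly ℚ (β ^ 2 / algebraMap ℚ Ω c) = minpoly ℚ u := by
    rw [← huΩ]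
    exact minpoly.algebraMap_eq hinj u
  refine hkron Ω (minpoly ℚ u) (β ^ 2 / algebraMap ℚ Ω c) (minpoly.monic huint) ?_ ?_ ?_ ?_
  · rw [← hminpoly]
    exact (root1_degree P hP c β haevalΩ).trans hd
  · rw [← hminpoly]
    exact minpoly.aeval ℚ _
  · intro z hz
    obtain ⟨τ, hτ⟩ := hemb ℂ z hz
    have h1 := hC (τ βK) (haevalτ ℂ τ)
    have hc' : (0 : ℝ) < (c : ℝ) := by exact_mod_cast hc
    have h2 : ‖algebraMap ℚ ℂ c‖ = (c : ℝ) := by
      rw [eq_ratCast, Complex.norm_ratCast, abs_of_pos hc']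
    rw [hτ, norm_div, norm_pow, h1, h2, div_self hc'.ne']
  · intro ℓ _ z hz
    obtain ⟨τ, hτ⟩ := hemb (PadicAlgCl ℓ) z hz
    by_cases hℓ : ℓ = p
    · subst hℓ
      obtain ⟨hp, hT⟩ := hNT
      have h1 := root1_embed P hP c RK hRK' τ
      have h2 : ((RK.map τ).map fun β =>
          ‖β ^ 2 / algebraMap ℚ (PadicAlgCl ℓ) c‖).prod = 1 := by
        have h3 : (((RK.map τ).map fun β =>
            ‖β ^ 2 / algebraMap ℚ (PadicAlgCl ℓ) c‖).prod) ^ N = 1 := by
          rw [← Multiset.prod_map_pow]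
          have h4 := congrArg (fun y => ‖τ y‖) hprodK
          simp only [map_one, norm_one] at h4
          rw [← h4, map_multiset_prod, Multiset.map_map]
          have h5 : ∀ s : Multiset (PadicAlgCl ℓ), ‖s.prod‖ = (s.map fun y => ‖y‖).prod := by
            intro s
            exact map_multiset_prod (normHom : PadicAlgCl ℓ →*₀ ℝ) s
          rw [h5, Multiset.map_map, Multiset.map_map]
          refine congrArg _ (Multiset.map_congr rfl fun y _ => ?_)
          simp
        have h6 : 0 ≤ ((RK.map τ).map fun β =>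
            ‖β ^ 2 / algebraMap ℚ (PadicAlgCl ℓ) c‖).prod := by
          refine Multiset.prod_nonneg fun a ha => ?_
          rw [Multiset.mem_map] at ha
          obtain ⟨b, -, rfl⟩ := ha
          exact norm_nonneg _
        exact (pow_eq_one_iff_of_nonneg h6 hN.ne').mp h3
      have h7 := hT (RK.map τ) h1 h2 (τ βK) (Multiset.mem_map_of_mem τ hβK)
      rw [hτ]
      exact h7.le
    · have h1 := hl ℓ (τ βK) hℓ (haevalτ (PadicAlgCl ℓ) τ)
      have h2 := hcl ℓ hℓ
      rw [hτ, norm_div, norm_pow, h1, root1_norm_rat, h2]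
      norm_num

end Pool.Agent.T10K
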