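import Pool.Agent.W_b4801b_t10k.Norm
import Pool.Agent.W_b4801b_t10k.Root1
import Pool.Agent.W_MP_b4801b_h67.Rel

/-! Frobenius eigenvalues on isotropic subspaces are roots of unity. -/

set_option autoImplicit false

noncomputable section

open Polynomial

universe u v

namespace Pool.Agent.T10K

open Pool.Agent.B4801b Pool.Agent.T10

variable {k : Type u} [Field k]

/-- `exists_relation` with the roots of the characteristic polynomial of the restriction. -/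
theorem Root_relation {K V : Type*} [Field K] [AddCommGroup V] [Module K V] (L : Type*) [Field L]
    [IsAlgClosed L] [Algebra K L] [Infinite K] [FiniteDimensional K V]
    (ψ : LinearMap.BilinForm K V) (hψ : Nondeg ψ) (A : Module.End K V) (c : K) (hc : c ≠ 0)
    (hA : ∀ x y, ψ (A x) (A y) = c * ψ x y) (W : Submodule K V) (hW : ∀ x ∈ W, A x ∈ W)
    (hI : ∀ x ∈ W, ∀ y ∈ W, ψ x y = 0) :
    (A.restrict hW).charpoly.aroots L +
      ((A.restrict hW).charpoly.aroots L).map (fun a => algebraMap K L c / a) ≤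
        A.charpoly.aroots L := by
  obtain ⟨B, hB, h3⟩ := charpoly_isotropic ψ hψ A c hc hA W hW hI
  have h4 := Polynomial.map_dvd (algebraMap K L) h3
  rw [Polynomial.map_mul, charpoly_dual_map L B c, hB, charpoly_map_eq_prod L (A.restrict hW),
    ← Multiset.prod_add] at h4
  have h5 := Polynomial.roots.le_of_dvd ((LinearMap.charpoly_monic A).map (algebraMap K L)).ne_zero h4
  refine le_trans (le_of_eq ?_) h5
  have h6 : ((A.restrict hW).charpoly.aroots L).map (fun a => X - C (algebraMap K L c / a)) =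
      (((A.restrict hW).charpoly.aroots L).map (fun a => algebraMap K L c / a)).map
        (fun a => X - C a) := by
    rw [Multiset.map_map]
    rfl
  rw [h6, ← Multiset.map_add, Polynomial.roots_multiset_prod_X_sub_C]

/-- The degrees of the Frobenius polynomials are bounded. -/
theorem Root_degree {w : ℕ} (S : CompSys.{u, v} k w) : ∃ d : ℕ, ∀ x ∈ S.Pl,
    (S.P x).natDegree ≤ d := by
  have h2 : Fact (Nat.Prime 2) := ⟨Nat.prime_two⟩
  have h3 : Fact (Nat.Prime 3) := ⟨Nat.prime_three⟩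
  have key : ∀ (ℓ : ℕ) [Fact ℓ.Prime], ∀ x ∈ S.Pl, ℓ ≠ x.p →
      (S.P x).natDegree = Module.finrank ℚ_[ℓ] (S.rep ℓ).V := by
    intro ℓ _ x hx hℓ
    have h := congrArg Polynomial.natDegree (S.charpoly_frob x hx ℓ hℓ)
    rw [LinearMap.charpoly_natDegree, Polynomial.natDegree_map] at h
    exact h.symm
  refine ⟨Module.finrank ℚ_[2] (S.rep 2).V + Module.finrank ℚ_[3] (S.rep 3).V, fun x hx => ?_⟩
  by_cases h : 2 = x.p
  · rw [key 3 x hx (by omega)]
    exact Nat.le_add_left _ _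
  · rw [key 2 x hx h]
    exact Nat.le_add_right _ _

/-- The product over the roots. -/
theorem Root_prod {K U : Type*} [Field K] [AddCommGroup U] [Module K U] [FiniteDimensional K U]
    (L : Type*) [Field L] [IsAlgClosed L] [Algebra K L] (B : Module.End K U) (c : L) (N : ℕ) :
    ((B.charpoly.aroots L).map fun β => (β ^ 2 / c) ^ N).prod =
      (algebraMap K L (LinearMap.det B) ^ 2 / c ^ Module.finrank K U) ^ N := by
  rw [Multiset.prod_map_pow]
  congr 1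
  rw [Multiset.prod_map_div, Multiset.prod_map_pow, Multiset.map_id', prod_aroots,
    Multiset.map_const', Multiset.prod_replicate, card_aroots]

/-- Proof. `charpoly_isotropic` for `A = ρ(F_x)`, `c = q ^ (2 j)`: the roots `R` of `F_x` on `W` in
`Ω = AlgebraicClosure ℚ_[ℓ]` satisfy `R + c / R ≤` roots of `P_x` (compare `exists_relation` in
`W_MP_b4801b_h67/Rel.lean`, where `R` is the multiset of the roots of the characteristic polynomial of the restriction), and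
`∏ (β ^ 2 / c) ^ N = (det (F_x | W) χ ^ (j dim W)) ^ (2 N) = 1` (`χ_ℓ(F_x) q = 1`). `root_of_test`
with `norm_root`, `norm_q`, `S.pure` (`|z|² = q ^ (2 j)`). So every eigenvalue `γ = χ ^ j β` of `twist F_x` on
`W` satisfies `γ ^ (2 M) = (β ^ 2 / c) ^ M = 1`. -/
theorem frob_eigenvalue {j : ℕ} (S : CompSys.{u, v} k (2 * j)) :
    ∃ M : ℕ, 0 < M ∧ ∀ (ℓ : ℕ) [Fact ℓ.Prime] (N : ℕ), 0 < N → IsoBalanced (S.rep ℓ) N →
      ∀ x ∈ S.Pl, ℓ ≠ x.p → NewtonTest (S.P x) ((x.q : ℚ) ^ (2 * j)) x.p →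
      ∀ (W : Submodule ℚ_[ℓ] (S.rep ℓ).V) (hW : ∀ σ, ∀ y ∈ W, (S.rep ℓ).ρ σ y ∈ W),
        (∀ y ∈ W, ∀ z ∈ W, (S.rep ℓ).ψ y z = 0) →
        ∀ β : AlgebraicClosure ℚ_[ℓ],
          aeval β (((S.rep ℓ).ρ x.frob).restrict (hW x.frob)).charpoly = 0 →
          (algebraMap ℚ_[ℓ] (AlgebraicClosure ℚ_[ℓ]) (cyc k ℓ x.frob) ^ j * β) ^ (2 * M) = 1 := by
  obtain ⟨d, hd⟩ := Root_degree S
  obtain ⟨M, hM, h⟩ := root_of_test d
  refine ⟨M, hM, ?_⟩
  intro ℓ _ N hN hI x hx hℓ hT W hW hiso β hβ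
  have hχ := x.cyc_frob ℓ hℓ
  have hq : (x.q : ℚ_[ℓ]) ≠ 0 := right_ne_zero_of_mul_eq_one hχ
  have hq0 : 0 < x.q := by
    rcases Nat.eq_zero_or_pos x.q with h0 | h0
    · rw [h0] at hq
      exact absurd Nat.cast_zero hq
    · exact h0
  have hcp := S.charpoly_frob x hx ℓ hℓ
  unfold PolRep.HasCharpoly at hcp
  -- the similitude
  have hA : ∀ y z, (S.rep ℓ).ψ ((S.rep ℓ).ρ x.frob y) ((S.rep ℓ).ρ x.frob z) =
      ((x.q : ℚ_[ℓ]) ^ (2 * j)) * (S.rep ℓ).ψ y z := by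
    intro y z
    have h1 := (S.rep ℓ).equivariant x.frob y z
    rw [← h1, ← mul_assoc, ← mul_pow, mul_comm (x.q : ℚ_[ℓ]), hχ, one_pow, one_mul]
  have hrel := Root_relation (AlgebraicClosure ℚ_[ℓ]) (S.rep ℓ).ψ (S.rep ℓ).nondeg
    ((S.rep ℓ).ρ x.frob) ((x.q : ℚ_[ℓ]) ^ (2 * j)) (pow_ne_zero _ hq) hA W (hW x.frob) hiso
  have hc : algebraMap ℚ (AlgebraicClosure ℚ_[ℓ]) ((x.q : ℚ) ^ (2 * j)) =
      algebraMap ℚ_[ℓ] (AlgebraicClosure ℚ_[ℓ]) ((x.q : ℚ_[ℓ]) ^ (2 * j)) := by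
    rw [map_pow, map_pow, map_natCast, map_natCast]
  have har : ((S.rep ℓ).ρ x.frob).charpoly.aroots (AlgebraicClosure ℚ_[ℓ]) =
      (S.P x).aroots (AlgebraicClosure ℚ_[ℓ]) := by
    rw [hcp, Polynomial.aroots_def, Polynomial.aroots_def, Polynomial.map_map]
    congr 2
  rw [har, ← hc] at hrel
  have hP0 : S.P x ≠ 0 := by
    intro h0
    rw [h0, Polynomial.map_zero] at hcp
    exact (LinearMap.charpoly_monic _).ne_zero hcp
  have hprod := Root_prod (AlgebraicClosure ℚ_[ℓ]) (((S.rep ℓ).ρ x.frob).restrict (hW x.frob))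
    (algebraMap ℚ (AlgebraicClosure ℚ_[ℓ]) ((x.q : ℚ) ^ (2 * j))) N
  have hone : (algebraMap ℚ_[ℓ] (AlgebraicClosure ℚ_[ℓ])
      (LinearMap.det (((S.rep ℓ).ρ x.frob).restrict (hW x.frob))) ^ 2 /
      (algebraMap ℚ (AlgebraicClosure ℚ_[ℓ]) ((x.q : ℚ) ^ (2 * j))) ^ Module.finrank ℚ_[ℓ] W) ^ N
        = 1 := by
    have h1 := hI W hW hiso x.frob
    have h2 : ((LinearMap.det (((S.rep ℓ).ρ x.frob).restrict (hW x.frob))) ^ 2 /
        ((x.q : ℚ_[ℓ]) ^ (2 * j)) ^ Module.finrank ℚ_[ℓ] W) ^ N = 1 := by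
      have h3 : cyc k ℓ x.frob = (x.q : ℚ_[ℓ])⁻¹ := eq_inv_of_mul_eq_one_left hχ
      have h4 : (LinearMap.det (((S.rep ℓ).ρ x.frob).restrict (hW x.frob))) ^ 2 /
          ((x.q : ℚ_[ℓ]) ^ (2 * j)) ^ Module.finrank ℚ_[ℓ] W =
          (LinearMap.det (((S.rep ℓ).ρ x.frob).restrict (hW x.frob)) *
            cyc k ℓ x.frob ^ (j * Module.finrank ℚ_[ℓ] W)) ^ 2 := by
        rw [h3, mul_pow, div_eq_mul_inv, inv_pow, inv_pow, ← pow_mul, ← pow_mul]
        congr 3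
        ring
      rw [h4, ← pow_mul, h1]
    have h5 := congrArg (algebraMap ℚ_[ℓ] (AlgebraicClosure ℚ_[ℓ])) h2
    rw [map_pow, map_div₀, map_pow, map_pow, map_one] at h5
    rw [hc]
    exact h5
  rw [hone] at hprod
  have hβ' : β ∈ (((S.rep ℓ).ρ x.frob).restrict (hW x.frob)).charpoly.aroots
      (AlgebraicClosure ℚ_[ℓ]) := by
    rw [Polynomial.mem_aroots]
    exact ⟨(LinearMap.charpoly_monic _).ne_zero, hβ⟩
  have hfin := h (AlgebraicClosure ℚ_[ℓ]) (S.P x) ((x.q : ℚ) ^ (2 * j)) x.p N _ hP0 (hd x hx)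
    (pow_pos (Nat.cast_pos.2 hq0) _) hN (fun z hz => by
      rw [S.pure x hx z hz]
      push_cast
      rfl) (fun ℓ' _ hℓ' => by
      rw [Rat.cast_pow, Rat.cast_natCast, norm_pow, norm_q x ℓ' hℓ', one_pow])
    (fun ℓ' _ α hℓ' hα => norm_root S x hx ℓ' hℓ' α hα) hT hrel hprod β hβ'
  rw [pow_mul, ← hfin]
  congr 1
  rw [hc, mul_pow, ← map_pow, ← map_pow, div_eq_mul_inv, ← map_inv₀, mul_comm]
  congr 2
  have h3 : cyc k ℓ x.frob = (x.q : ℚ_[ℓ])⁻¹ := eq_inv_of_mul_eq_one_left hχ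
  rw [h3, inv_pow, inv_pow, ← pow_mul, mul_comm j 2]

end Pool.Agent.T10K
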