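import Mathlib

/-! Auxiliary statements for `exists_open_unipotent`: a dense set of elements with characteristic
polynomials in a finite set. -/

set_option autoImplicit false

noncomputable section

open Polynomial

namespace Pool.Agent.T10K

theorem UnipA_root {K W : Type*} [Field K] [AddCommGroup W] [Module K W] [FiniteDimensional K W]
    (A : Module.End K W) (c : K) (hc : c ≠ 0) (Ω : Type*) [Field Ω] [Algebra K Ω] (γ : Ω)
    (h : aeval γ (c • A).charpoly = 0) : aeval (γ / algebraMap K Ω c) A.charpoly = 0 := by
  classical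
  set b := Module.finBasis K W
  have key : ∀ (E : Module.End K W) (z : Ω), aeval z E.charpoly =
      (Matrix.scalar _ z - (LinearMap.toMatrix b b E).map (algebraMap K Ω)).det := by
    intro E z
    rw [← Matrix.eval_charpoly, ← LinearMap.charpoly_toMatrix E b, ← Polynomial.eval_map_algebraMap]
    congr 1
    exact (Matrix.charpoly_map _ (algebraMap K Ω)).symm
  have hc' : algebraMap K Ω c ≠ 0 := by
    rw [Ne, map_eq_zero]
    exact hc
  rw [key] at h ⊢
  have h1 : Matrix.scalar _ γ - (LinearMap.toMatrix b b (c • A)).map (algebraMap K Ω) =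
      algebraMap K Ω c • (Matrix.scalar _ (γ / algebraMap K Ω c) -
        (LinearMap.toMatrix b b A).map (algebraMap K Ω)) := by
    ext i j
    rw [map_smul]
    by_cases hij : i = j
    · subst hij
      simp only [Matrix.sub_apply, Matrix.scalar_apply, Matrix.diagonal_apply_eq, Matrix.map_apply,
        Matrix.smul_apply, smul_eq_mul, map_mul]
      field_simp
    · simp only [Matrix.sub_apply, Matrix.scalar_apply, Matrix.diagonal_apply_ne _ hij,
        Matrix.map_apply, Matrix.smul_apply, smul_eq_mul, map_mul]
      ring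
  rw [h1, Matrix.det_smul] at h
  exact (mul_eq_zero.1 h).resolve_left (pow_ne_zero _ hc')

theorem UnipA_dvd {K : Type*} [Field K] (p : K[X]) (hp : p.Monic) (m : ℕ)
    (Ω : Type*) [Field Ω] [Algebra K Ω] [IsAlgClosed Ω]
    (h : ∀ γ : Ω, aeval γ p = 0 → γ ^ m = 1) : p ∣ (X ^ m - 1) ^ p.natDegree := by
  rw [← Polynomial.map_dvd_map' (algebraMap K Ω)]
  have hs : (p.map (algebraMap K Ω)).Splits := IsAlgClosed.splits _
  have hm : (p.map (algebraMap K Ω)).Monic := hp.map _
  have hroots : ∀ γ ∈ (p.map (algebraMap K Ω)).roots, γ ^ m = 1 := by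
    intro γ hγ
    apply h
    rw [← Polynomial.eval_map_algebraMap]
    exact Polynomial.isRoot_of_mem_roots hγ
  have hcard : Multiset.card (p.map (algebraMap K Ω)).roots = p.natDegree := by
    rw [← hs.natDegree_eq_card_roots, natDegree_map]
  have heq : ((p.map (algebraMap K Ω)).roots.map fun a => X - C a).prod = p.map (algebraMap K Ω) := by
    have := hs.eq_prod_roots
    rw [hm.leadingCoeff, C_1, one_mul] at this
    exact this.symm
  rw [← heq, ← hcard]
  rw [Polynomial.map_pow, Polynomial.map_sub, Polynomial.map_pow, Polynomial.map_X,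
    Polynomial.map_one]
  generalize (p.map (algebraMap K Ω)).roots = s at hroots ⊢
  induction s using Multiset.induction_on with
  | empty => simp
  | cons a s ih =>
    rw [Multiset.map_cons, Multiset.prod_cons, Multiset.card_cons, pow_succ']
    refine mul_dvd_mul ?_ (ih fun γ hγ => hroots γ (Multiset.mem_cons_of_mem hγ))
    rw [Polynomial.dvd_iff_isRoot, IsRoot, eval_sub, eval_pow, eval_X, eval_one,
      hroots a (Multiset.mem_cons_self a s), sub_self]

theorem UnipA_finite {K : Type*} [Field K] (q : K[X]) (hq : q ≠ 0) :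
    {p : K[X] | p.Monic ∧ p ∣ q}.Finite := by
  classical
  refine Set.Finite.subset (Finset.finite_toSet
    ((UniqueFactorizationMonoid.normalizedFactors q).powerset.toFinset.image Multiset.prod)) ?_
  rintro p ⟨hp, hpq⟩
  rw [Finset.mem_coe, Finset.mem_image]
  refine ⟨UniqueFactorizationMonoid.normalizedFactors p, ?_, ?_⟩
  · rw [Multiset.mem_toFinset, Multiset.mem_powerset]
    exact (UniqueFactorizationMonoid.dvd_iff_normalizedFactors_le_normalizedFactors hp.ne_zero
      hq).1 hpq
  · rw [UniqueFactorizationMonoid.prod_normalizedFactors_eq hp.ne_zero, hp.normalize_eq_self]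

/-- Coefficients of characteristic polynomials are continuous. -/
theorem UnipA_cont {K W G : Type*} [Field K] [TopologicalSpace K] [IsTopologicalRing K]
    [AddCommGroup W] [Module K W] [FiniteDimensional K W] [TopologicalSpace G]
    (T : G → Module.End K W)
    (hT : ∀ (f : Module.Dual K W) (x : W), Continuous fun σ => f (T σ x)) (i : ℕ) :
    Continuous fun σ => (T σ).charpoly.coeff i := by
  classical
  set b := Module.finBasis K W
  have h1 : ∀ σ, (T σ).charpoly.coeff i = MvPolynomial.eval
      (fun p : Fin (Module.finrank K W) × Fin (Module.finrank K W) =>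
        LinearMap.toMatrix b b (T σ) p.1 p.2)
      ((Matrix.charpoly.univ K (Fin (Module.finrank K W))).coeff i) := by
    intro σ
    have h2 := Matrix.charpoly.univ_coeff_eval₂Hom (Fin (Module.finrank K W)) (RingHom.id K)
      (fun p : Fin (Module.finrank K W) × Fin (Module.finrank K W) =>
        LinearMap.toMatrix b b (T σ) p.1 p.2) i
    have h3 : (Matrix.of (Function.curry
        fun p : Fin (Module.finrank K W) × Fin (Module.finrank K W) =>
          LinearMap.toMatrix b b (T σ) p.1 p.2)) = LinearMap.toMatrix b b (T σ) := rfl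
    rw [h3, LinearMap.charpoly_toMatrix] at h2
    rw [← h2]
    rfl
  simp only [h1]
  refine (MvPolynomial.continuous_eval _).comp ?_
  refine continuous_pi fun p => ?_
  simp only [LinearMap.toMatrix_apply]
  exact hT (b.coord p.1) (b p.2)

/-- The main statement: if the characteristic polynomials of a dense set of elements divide a fixed
polynomial then they are constant near `1`. -/
theorem UnipA_main {K W G : Type*} [Field K] [TopologicalSpace K] [IsTopologicalRing K] [T1Space K]
    [AddCommGroup W] [Module K W] [FiniteDimensional K W] [TopologicalSpace G] [One G]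
    (T : G → Module.End K W) (hT1 : T 1 = 1)
    (hT : ∀ (f : Module.Dual K W) (x : W), Continuous fun σ => f (T σ x))
    (D : Set G) (hD : Dense D) (q : K[X]) (hq : q ≠ 0) (hDq : ∀ σ ∈ D, (T σ).charpoly ∣ q) :
    ∃ O : Set G, IsOpen O ∧ 1 ∈ O ∧ ∀ σ ∈ O, (T σ - 1) ^ Module.finrank K W = 0 := by
  classical
  let Φ : G → (Fin (Module.finrank K W + 1) → K) := fun σ i => (T σ).charpoly.coeff i
  have hΦ : Continuous Φ := continuous_pi fun i => UnipA_cont T hT i
  let F : Set (Fin (Module.finrank K W + 1) → K) :=
    (fun (p : K[X]) (i : Fin (Module.finrank K W + 1)) => p.coeff i) '' {p : K[X] | p.Monic ∧ p ∣ q}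
  have hF : F.Finite := (UnipA_finite q hq).image _
  have hall : ∀ σ, Φ σ ∈ F := by
    have hc : IsClosed (Φ ⁻¹' F) := hF.isClosed.preimage hΦ
    have hsub : D ⊆ Φ ⁻¹' F := fun σ hσ => ⟨(T σ).charpoly, ⟨(T σ).charpoly_monic, hDq σ hσ⟩, rfl⟩
    have h1 := closure_minimal hsub hc
    rw [hD.closure_eq] at h1
    exact fun σ => h1 (Set.mem_univ σ)
  refine ⟨Φ ⁻¹' (F \ {Φ 1})ᶜ, ?_, ?_, ?_⟩
  · exact ((hF.subset Set.diff_subset).isClosed.isOpen_compl).preimage hΦ
  · intro h
    exact h.2 rfl
  · intro σ hσ
    have h1 : Φ σ = Φ 1 := by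
      by_contra hne
      exact hσ ⟨hall σ, hne⟩
    have h2 : (T σ).charpoly = (T 1).charpoly := by
      ext i
      by_cases hi : i < Module.finrank K W + 1
      · exact congrFun h1 ⟨i, hi⟩
      · rw [Polynomial.coeff_eq_zero_of_natDegree_lt, Polynomial.coeff_eq_zero_of_natDegree_lt]
        · rw [LinearMap.charpoly_natDegree]; omega
        · rw [LinearMap.charpoly_natDegree]; omega
    have h3 : (T 1).charpoly = (X - 1) ^ Module.finrank K W := by
      rw [hT1]
      exact LinearMap.charpoly_one
    have h4 := LinearMap.aeval_self_charpoly (T σ)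
    rw [h2, h3] at h4
    simpa using h4

end Pool.Agent.T10K
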