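import Pool.Agent.W_b4801b_t10k.Root
import Pool.Agent.W_b4801b_t10k.UnipA

/-! An open subgroup acts unipotently on the isotropic subspaces. -/

set_option autoImplicit false

noncomputable section

open Polynomial

universe u v

namespace Pool.Agent.T10K

open Pool.Agent.B4801b Pool.Agent.T10

variable {k : Type u} [Field k]

theorem Unip_cyc_cont (ℓ : ℕ) [Fact ℓ.Prime] : Continuous fun σ : Gal k => cyc k ℓ σ := by
  have h := cyclotomicCharacter.continuous ℓ k (AlgebraicClosure k)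
  have h2 : (fun σ : Gal k => cyc k ℓ σ) = fun σ : Gal k =>
      (((((cyclotomicCharacter (AlgebraicClosure k) ℓ).comp
        (MulSemiringAction.toRingAut (Gal k) (AlgebraicClosure k))) σ : ℤ_[ℓ]ˣ) : ℤ_[ℓ]) :
          ℚ_[ℓ]) := by
    funext σ
    have e : MulSemiringAction.toRingAut (Gal k) (AlgebraicClosure k) σ = σ.toRingEquiv :=
      RingEquiv.ext fun x => rfl
    unfold cyc
    rw [MonoidHom.comp_apply, e]
  rw [h2]
  have h3 : Continuous fun z : ℤ_[ℓ] => (z : ℚ_[ℓ]) := continuous_subtype_val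
  have h4 : Continuous fun u : ℤ_[ℓ]ˣ => (u : ℤ_[ℓ]) := Units.continuous_val
  exact h3.comp (h4.comp h)

theorem Unip_cyc_ne (ℓ : ℕ) [Fact ℓ.Prime] (σ : Gal k) : cyc k ℓ σ ≠ 0 := by
  intro h0
  have h1 : ((cyclotomicCharacter (AlgebraicClosure k) ℓ σ.toRingEquiv : ℤ_[ℓ]ˣ) : ℤ_[ℓ]) = 0 := by
    apply Subtype.val_injective
    exact h0
  exact Units.ne_zero _ h1

theorem Unip_cyc_mul (ℓ : ℕ) [Fact ℓ.Prime] (σ τ : Gal k) :
    cyc k ℓ (σ * τ) = cyc k ℓ σ * cyc k ℓ τ := by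
  have h1 : (σ * τ).toRingEquiv = σ.toRingEquiv * τ.toRingEquiv := rfl
  unfold cyc
  rw [h1, map_mul, Units.val_mul, PadicInt.coe_mul]

/-- If `M > 0` and all eigenvalues of `twist σ` on the stable subspace `W` are `2 M`-th roots of unity
for a dense set of `σ` (Frobenius elements), then an open subgroup acts unipotently.

Proof. For `σ ∈ Gal k` put `T(σ) = twist R σ` restricted to `W`, `n = dim W`: a continuous homomorphism
into `GL(W)`. For `x ∈ S.Pl`, `ℓ ≠ p_x`, and all conjugates `σ` of `F_x`: the eigenvalues of `T(σ) ^ (2 M)` are `1`, i.e.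
`(T(σ) ^ (2 M) - 1) ^ n = 0`. This is a closed condition on `σ`, and the conjugates of the `F_x` are dense
(`DenseFrob`), so it holds for all `σ ∈ Gal k`. So all eigenvalues of all `T(σ)` are `2 M`-th roots of
unity; the characteristic polynomials of the `T(σ)` belong to a finite set, and the characteristic
polynomial is continuous, so on an open subgroup `U` (stabilizer of the neighbourhood of `1`:
choose an open subgroup inside the open set where `charpoly T(σ) = (X - 1)^n`, which is open because it is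
the preimage of an isolated point of a finite set) it is `(X - 1) ^ n`, and
`(T(σ) - 1) ^ n = 0` (Cayley-Hamilton). -/
theorem exists_open_unipotent {j : ℕ} (S : CompSys.{u, v} k (2 * j)) (hd : DenseFrob S)
    (hN : ∀ x ∈ S.Pl, NewtonTest (S.P x) ((x.q : ℚ) ^ (2 * j)) x.p) (ℓ : ℕ) [Fact ℓ.Prime] (N : ℕ)
    (hN0 : 0 < N) (hbal : IsoBalanced (S.rep ℓ) N)
    (W : Submodule ℚ_[ℓ] (S.rep ℓ).V) (hW : ∀ σ, ∀ y ∈ W, (S.rep ℓ).ρ σ y ∈ W)
    (hI : ∀ y ∈ W, ∀ z ∈ W, (S.rep ℓ).ψ y z = 0) :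
    ∃ U : Subgroup (Gal k), IsOpen (U : Set (Gal k)) ∧ ∃ n : ℕ, ∀ σ ∈ U, ∀ x ∈ W,
      ((twist (S.rep ℓ) σ - 1) ^ n) x = 0 := by
  classical
  obtain ⟨M, hM, hroot⟩ := frob_eigenvalue S
  -- the restriction of `ρ(σ)` and of the twist to `W`
  let A : Gal k → Module.End ℚ_[ℓ] W := fun σ => ((S.rep ℓ).ρ σ).restrict (hW σ)
  let T : Gal k → Module.End ℚ_[ℓ] W := fun σ => (cyc k ℓ σ ^ j) • A σ
  have hAc : ∀ σ (y : W), ((A σ y : W) : (S.rep ℓ).V) = (S.rep ℓ).ρ σ y := fun σ y => rfl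
  have hTc : ∀ σ (y : W), ((T σ y : W) : (S.rep ℓ).V) = twist (S.rep ℓ) σ y := fun σ y => rfl
  have hAmul : ∀ σ τ, A (σ * τ) = A σ * A τ := by
    intro σ τ
    apply LinearMap.ext
    intro y
    apply Subtype.ext
    rw [Module.End.mul_apply, hAc, hAc, hAc, map_mul, Module.End.mul_apply]
  have hA1 : A 1 = 1 := by
    apply LinearMap.ext
    intro y
    apply Subtype.ext
    rw [hAc, map_one]
    rfl
  have hcyc1 : cyc k ℓ (1 : Gal k) = 1 := by
    have h1 := Unip_cyc_mul ℓ (1 : Gal k) 1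
    rw [mul_one] at h1
    exact (mul_right_cancel₀ (Unip_cyc_ne ℓ (1 : Gal k)) (by rw [one_mul]; exact h1)).symm
  have hT1 : T 1 = 1 := by
    change (cyc k ℓ (1 : Gal k) ^ j) • A 1 = 1
    rw [hcyc1, one_pow, one_smul, hA1]
  have hcont : ∀ (f : Module.Dual ℚ_[ℓ] W) (x : W), Continuous fun σ => f (T σ x) := by
    intro f x
    obtain ⟨g, hg⟩ := LinearMap.exists_extend f
    have h1 : (fun σ => f (T σ x)) = fun σ => cyc k ℓ σ ^ j * g ((S.rep ℓ).ρ σ x) := by
      funext σ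
      rw [← hg]
      change g (((T σ x : W) : (S.rep ℓ).V)) = _
      rw [hTc]
      change g ((cyc k ℓ σ ^ j) • (S.rep ℓ).ρ σ x) = _
      rw [map_smul, smul_eq_mul]
    rw [h1]
    exact ((Unip_cyc_cont ℓ).pow j).mul ((S.rep ℓ).continuous g x)
  -- the dense set
  let D : Set (Gal k) := {σ | ∃ x ∈ S.Pl, x.p ≠ ℓ ∧ ∃ h : Gal k, σ = h * x.frob * h⁻¹}
  have hD : Dense D := by
    intro g
    rw [mem_closure_iff]
    intro O hO hgO
    have hO' : (fun τ => g * τ) ⁻¹' O ∈ nhds (1 : Gal k) :=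
      (hO.preimage (continuous_const.mul continuous_id)).mem_nhds (by simpa using hgO)
    obtain ⟨E, hE, hEO⟩ := (krullTopology_mem_nhds_one_iff k (AlgebraicClosure k) _).1 hO'
    obtain ⟨x, hx, hxT, h, hh⟩ := hd E.fixingSubgroup (E.fixingSubgroup_isOpen) g {ℓ}
    refine ⟨h * x.frob * h⁻¹, ?_, x, hx, ?_, h, rfl⟩
    · have := hEO hh
      simpa using this
    · intro h0
      exact hxT (by rw [h0]; exact Finset.mem_singleton_self _)
  have hconj : ∀ h τ : Gal k, (T (h * τ * h⁻¹)).charpoly = (T τ).charpoly := by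
    intro h τ
    have hinv : A h * A h⁻¹ = 1 := by rw [← hAmul, mul_inv_cancel, hA1]
    have hinv' : A h⁻¹ * A h = 1 := by rw [← hAmul, inv_mul_cancel, hA1]
    let e : W ≃ₗ[ℚ_[ℓ]] W := LinearEquiv.ofLinear (A h) (A h⁻¹) hinv hinv'
    have h1 : T (h * τ * h⁻¹) = e.conj (T τ) := by
      apply LinearMap.ext
      intro y
      have hc : cyc k ℓ (h * τ * h⁻¹) = cyc k ℓ τ := by
        rw [Unip_cyc_mul, Unip_cyc_mul, mul_comm (cyc k ℓ h), mul_assoc, ← Unip_cyc_mul,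
          mul_inv_cancel, hcyc1, mul_one]
      change (cyc k ℓ (h * τ * h⁻¹) ^ j) • A (h * τ * h⁻¹) y = A h ((cyc k ℓ τ ^ j) • A τ (A h⁻¹ y))
      rw [hc, map_smul, hAmul, hAmul, Module.End.mul_apply, Module.End.mul_apply]
    rw [h1, LinearEquiv.charpoly_conj]
  have hq : ((X : ℚ_[ℓ][X]) ^ (2 * M) - 1) ^ Module.finrank ℚ_[ℓ] W ≠ 0 := by
    apply pow_ne_zero
    exact (Polynomial.monic_X_pow_sub_C 1 (by omega : 2 * M ≠ 0)).ne_zero
  have hDq : ∀ σ ∈ D, (T σ).charpoly ∣ ((X : ℚ_[ℓ][X]) ^ (2 * M) - 1) ^ Module.finrank ℚ_[ℓ] W := by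
    rintro _ ⟨x, hx, hxp, h, rfl⟩
    rw [hconj]
    have hdvd := UnipA_dvd (T x.frob).charpoly (LinearMap.charpoly_monic _) (2 * M)
      (AlgebraicClosure ℚ_[ℓ]) (fun γ hγ => ?_)
    · rw [LinearMap.charpoly_natDegree] at hdvd
      exact hdvd
    · have hc0 : cyc k ℓ x.frob ^ j ≠ 0 := pow_ne_zero _ (Unip_cyc_ne ℓ _)
      have h1 := UnipA_root (A x.frob) _ hc0 (AlgebraicClosure ℚ_[ℓ]) γ hγ
      have h2 := hroot ℓ N hN0 hbal x hx (Ne.symm hxp) (hN x hx) W hW hI _ h1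
      rw [map_pow, mul_div_cancel₀] at h2
      · exact h2
      · rw [← map_pow, Ne, map_eq_zero]
        exact hc0
  obtain ⟨O, hO, h1O, hOn⟩ := UnipA_main T hT1 hcont D hD _ hq hDq
  obtain ⟨E, hE, hEO⟩ := (krullTopology_mem_nhds_one_iff k (AlgebraicClosure k) O).1
    (hO.mem_nhds h1O)
  refine ⟨E.fixingSubgroup, E.fixingSubgroup_isOpen, Module.finrank ℚ_[ℓ] W, fun σ hσ x hx => ?_⟩
  have h1 := hOn σ (hEO hσ)
  have h2 : ∀ (n : ℕ) (y : W), ((((T σ - 1) ^ n) y : W) : (S.rep ℓ).V) = ((twist (S.rep ℓ) σ - 1) ^ n) y := by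
    intro n
    induction n with
    | zero => intro y; rfl
    | succ n ih =>
      intro y
      rw [pow_succ, pow_succ, Module.End.mul_apply, Module.End.mul_apply, ih]
      rfl
  have h3 := h2 (Module.finrank ℚ_[ℓ] W) ⟨x, hx⟩
  rw [h1] at h3
  exact h3.symm

end Pool.Agent.T10K
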